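import Pool.Agent.Lib.MP_a17b09_nt.Basic

set_option autoImplicit false

namespace Pool.Agent.Lib.MP_a17b09_nt

/-- the colour modulo three -/
noncomputable def h3 (P : Set ℕ) (b c : ℤ) (u : ℤ × ℤ) : ZMod 3 :=
  ((cnt P (nrm b c u).natAbs : ℕ) : ZMod 3)

lemma h3_mulp (P : Set ℕ) {b c : ℤ} (hD : ¬ IsSquare (b ^ 2 - 4 * c)) {u v : ℤ × ℤ}
    (hu : u ≠ 0) (hv : v ≠ 0) : h3 P b c (mulp b c u v) = h3 P b c u + h3 P b c v := by
  unfold h3
  rw [nrm_mulp, Int.natAbs_mul, cnt_mul P (Int.natAbs_ne_zero.2 (nrm_ne_zero hD hu))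
    (Int.natAbs_ne_zero.2 (nrm_ne_zero hD hv)), Nat.cast_add]

lemma parents {x y : ℤ} (hx : 0 < x) (hy : 0 < y) (h : IsCoprime x y) :
    ∃ x1 y1 : ℤ, 1 ≤ x1 ∧ x1 ≤ x ∧ 0 ≤ y1 ∧ y1 < y ∧ x1 * y - y1 * x = 1 := by
  obtain ⟨r, s, hrs⟩ := h
  set x1 : ℤ := (s - 1) % x + 1 with hx1
  have h0 : 0 ≤ (s - 1) % x := Int.emod_nonneg _ hx.ne'
  have h1 : (s - 1) % x < x := Int.emod_lt_of_pos _ hx
  have h2 := Int.emod_add_mul_ediv (s - 1) x
  set k : ℤ := (s - 1) / x with hk
  -- x1 = s - x k
  have h3 : x1 = s - x * k := by rw [hx1]; linarith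
  have h4 : x1 * y - 1 = x * (-r - k * y) := by
    rw [h3]
    linear_combination hrs
  refine ⟨x1, -r - k * y, by linarith, by linarith, ?_, ?_, ?_⟩
  · have h5 : 0 ≤ x * (-r - k * y) := by
      rw [← h4]
      have : 1 ≤ x1 := by linarith
      have : 1 * 1 ≤ x1 * y := by gcongr; exact hy
      linarith
    exact nonneg_of_mul_nonneg_right h5 hx
  · have h5 : x * (-r - k * y) < x * y := by
      rw [← h4]
      have : x1 * y ≤ x * y := by gcongr; linarith
      linarith
    exact lt_of_mul_lt_mul_left h5 hx.le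
  · linarith

lemma z3_aux1 : ∀ gp gq : ZMod 3, gp + gq ≠ 0 →
    ∃ s : ZMod 3, s ≠ 0 ∧ (gp = 0 ∨ gp = s) ∧ (gq = 0 ∨ gq = s) := by decide

lemma z3_aux2 : ∀ s ga gb gv : ZMod 3, s ≠ 0 → (ga = 0 ∨ ga = s) → (gb = 0 ∨ gb = s) →
    ga + gb ≠ 0 → ga + gv ≠ 0 → gv + gb ≠ 0 → gv = 0 ∨ gv = s := by decide

lemma isCoprime_of_det {u v : ℤ × ℤ} (h : det u v = 1) : IsCoprime u.1 u.2 := by
  refine ⟨v.2, -v.1, ?_⟩
  simp only [det] at h
  linarith

lemma isCoprime_of_det' {u v : ℤ × ℤ} (h : det u v = 1) : IsCoprime v.1 v.2 := by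
  refine ⟨-u.2, u.1, ?_⟩
  simp only [det] at h
  linarith

theorem cone_lemma (G : ℤ × ℤ → ZMod 3) (p q : ℤ × ℤ) (hpq : det p q = 1) (hp : 0 < p.1)
    (hq : 0 < q.1) (X : ℤ) (hpX : p.1 ≤ X) (hqX : q.1 ≤ X)
    (hgood : ∀ u v : ℤ × ℤ, det u v = 1 → 0 < u.1 → 0 < v.1 → u.1 ≤ X → v.1 ≤ X →
      0 ≤ det p u → 0 ≤ det v q → G u + G v ≠ 0) :
    ∃ s : ZMod 3, s ≠ 0 ∧ ∀ v : ℤ × ℤ, IsCoprime v.1 v.2 → 0 < v.1 → v.1 ≤ X →
      0 ≤ det p v → 0 ≤ det v q → G v = 0 ∨ G v = s := by
  have hpp : det p p = 0 := by simp only [det]; ring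
  have hqq : det q q = 0 := by simp only [det]; ring
  obtain ⟨s, hs, hsp, hsq⟩ := z3_aux1 (G p) (G q)
    (hgood p q hpq hp hq hpX hqX (by rw [hpp]) (by rw [hqq]))
  refine ⟨s, hs, ?_⟩
  have key : ∀ n : ℕ, ∀ v : ℤ × ℤ, IsCoprime v.1 v.2 → 0 < v.1 → v.1 ≤ X →
      0 ≤ det p v → 0 ≤ det v q → det p v + det v q ≤ n → G v = 0 ∨ G v = s := by
    intro n
    induction n using Nat.strong_induction_on with
    | _ n ih =>
      intro v hv hv1 hvX h1 h2 hn
      set y : ℤ := det p v with hy
      set x : ℤ := det v q with hx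
      have e1 : v.1 = x * p.1 + y * q.1 := by
        have h := hpq
        simp only [det] at h hx hy
        rw [hx, hy]
        linear_combination (-v.1) * h
      have e2 : v.2 = x * p.2 + y * q.2 := by
        have h := hpq
        simp only [det] at h hx hy
        rw [hx, hy]
        linear_combination (-v.2) * h
      have hcop : IsCoprime x y := by
        obtain ⟨r, t, hrt⟩ := hv
        refine ⟨r * p.1 + t * p.2, r * q.1 + t * q.2, ?_⟩
        rw [e1, e2] at hrt
        linarith
      rcases lt_or_eq_of_le h2 with hx0 | hx0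
      · rcases lt_or_eq_of_le h1 with hy0 | hy0
        · -- both positive
          obtain ⟨x1, y1, k1, k2, k3, k4, k5⟩ := parents hx0 hy0 hcop
          set a : ℤ × ℤ := (x1 * p.1 + y1 * q.1, x1 * p.2 + y1 * q.2) with ha
          set b : ℤ × ℤ := ((x - x1) * p.1 + (y - y1) * q.1,
            (x - x1) * p.2 + (y - y1) * q.2) with hb
          have hpq' : p.1 * q.2 - p.2 * q.1 = 1 := hpq
          have dav : det a v = 1 := by
            simp only [det, ha]
            rw [e1, e2]
            linear_combination (x1 * y - y1 * x) * hpq' + k5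
          have dab : det a b = 1 := by
            simp only [det, ha, hb]
            linear_combination (x1 * y - y1 * x) * hpq' + k5
          have dvb : det v b = 1 := by
            simp only [det, hb]
            rw [e1, e2]
            linear_combination (x1 * y - y1 * x) * hpq' + k5
          have dpa : det p a = y1 := by
            simp only [det, ha]
            linear_combination y1 * hpq'
          have daq : det a q = x1 := by
            simp only [det, ha]
            linear_combination x1 * hpq'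
          have dpb : det p b = y - y1 := by
            simp only [det, hb]
            linear_combination (y - y1) * hpq'
          have dbq : det b q = x - x1 := by
            simp only [det, hb]
            linear_combination (x - x1) * hpq'
          have hx1' : 0 ≤ x - x1 := by linarith
          have hy1' : 1 ≤ y - y1 := by linarith
          have ha1 : 0 < a.1 := by
            simp only [ha]
            have : 0 < x1 * p.1 := by positivity
            have : 0 ≤ y1 * q.1 := by positivity
            linarith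
          have hb1 : 0 < b.1 := by
            simp only [hb]
            have : 0 ≤ (x - x1) * p.1 := by positivity
            have : 0 < (y - y1) * q.1 := by positivity
            linarith
          have hsum : a.1 + b.1 = v.1 := by
            simp only [ha, hb]; rw [e1]; ring
          have haX : a.1 ≤ X := by linarith
          have hbX : b.1 ≤ X := by linarith
          have Ga := ih (y1 + x1).toNat (by omega) a (isCoprime_of_det dav) ha1 haX
            (by rw [dpa]; exact k3) (by rw [daq]; linarith) (by rw [dpa, daq]; omega)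
          have Gb := ih ((y - y1) + (x - x1)).toNat (by omega) b (isCoprime_of_det' dab) hb1 hbX
            (by rw [dpb]; linarith) (by rw [dbq]; exact hx1') (by rw [dpb, dbq]; omega)
          have g1 := hgood a b dab ha1 hb1 haX hbX (by rw [dpa]; exact k3)
            (by rw [dbq]; exact hx1')
          have g2 := hgood a v dav ha1 hv1 haX hvX (by rw [dpa]; exact k3)
            (by rw [← hx]; exact hx0.le)
          have g3 := hgood v b dvb hv1 hb1 hvX hbX (by rw [← hy]; exact hy0.le)
            (by rw [dbq]; exact hx1')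
          exact z3_aux2 s _ _ _ hs Ga Gb g1 g2 g3
        · -- y = 0
          rw [← hy0] at hcop e1 e2
          have hx1 : x = 1 := by
            have h := (isCoprime_zero_right.1 hcop)
            exact Int.eq_one_of_dvd_one hx0.le (isUnit_iff_dvd_one.1 h)
          have : v = p := by
            apply Prod.ext
            · rw [e1, hx1]; ring
            · rw [e2, hx1]; ring
          rw [this]; exact hsp
      · -- x = 0
        rw [← hx0] at hcop e1 e2
        have hy1 : y = 1 := by
          have h := (isCoprime_zero_left.1 hcop)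
          exact Int.eq_one_of_dvd_one h1 (isUnit_iff_dvd_one.1 h)
        have : v = q := by
          apply Prod.ext
          · rw [e1, hy1]; ring
          · rw [e2, hy1]; ring
        rw [this]; exact hsq
  intro v hv hv1 hvX h1 h2
  exact key (det p v + det v q).toNat v hv hv1 hvX h1 h2 (by omega)

end Pool.Agent.Lib.MP_a17b09_nt
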