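import Pool.Agent.Lib.MP_a17b09_nt.Unpop
import Pool.Agent.Lib.MP_a17b09_nt.Count
import Pool.Agent.Lib.MP_a17b09_nt.M3.Cone

set_option autoImplicit false

open Finset

namespace Pool.Agent.Lib.MP_a17b09_nt

/-- few roots modulo a prime -/
lemma few_roots {b c : ℤ} {p : ℕ} (hp : p.Prime) (hp5 : 5 ≤ p)
    (hpD : ¬ (p : ℤ) ∣ b ^ 2 - 4 * c) (u v : ℤ × ℤ) (hd : det u v ^ 2 = 1) :
    ((range 5).filter (fun x : ℕ => (p : ℤ) ∣ nrm b c (u.1 + x * v.1, u.2 + x * v.2))).card ≤ 2 := by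
  by_contra hcon
  push Not at hcon
  rw [Finset.two_lt_card] at hcon
  obtain ⟨x1, h1, x2, h2, x3, h3, n12, n13, n23⟩ := hcon
  rw [mem_filter, mem_range] at h1 h2 h3
  have hpp : Prime (p : ℤ) := Nat.prime_iff_prime_int.1 hp
  set B : ℤ := 2 * u.1 * v.1 + b * (u.1 * v.2 + u.2 * v.1) + 2 * c * u.2 * v.2 with hB
  have e : ∀ x : ℤ, nrm b c (u.1 + x * v.1, u.2 + x * v.2) =
      nrm b c u + B * x + nrm b c v * x ^ 2 := by
    intro x; rw [hB]; simp only [nrm]; ring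
  have hdisc : B ^ 2 - 4 * nrm b c u * nrm b c v = b ^ 2 - 4 * c := by
    have : B ^ 2 - 4 * nrm b c u * nrm b c v = (b ^ 2 - 4 * c) * det u v ^ 2 := by
      rw [hB]; simp only [nrm, det]; ring
    rw [this, hd, mul_one]
  have hsmall : ∀ x y : ℕ, x < 5 → y < 5 → x ≠ y → ¬ (p : ℤ) ∣ (x : ℤ) - y := by
    intro x y hx hy hxy hdvd
    have h0 : (x : ℤ) - y ≠ 0 := by omega
    have := Int.le_of_dvd (abs_pos.2 h0) ((dvd_abs _ _).2 hdvd)
    have h4 : |(x : ℤ) - y| ≤ 4 := by rw [abs_le]; constructor <;> omega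
    omega
  have hquot : ∀ x y : ℕ, x < 5 → y < 5 → x ≠ y →
      (p : ℤ) ∣ nrm b c (u.1 + x * v.1, u.2 + x * v.2) →
      (p : ℤ) ∣ nrm b c (u.1 + y * v.1, u.2 + y * v.2) →
      (p : ℤ) ∣ B + nrm b c v * (x + y) := by
    intro x y hx hy hxy k1 k2
    rw [e] at k1 k2
    have h := dvd_sub k1 k2
    have e2 : nrm b c u + B * x + nrm b c v * (x : ℤ) ^ 2 -
        (nrm b c u + B * y + nrm b c v * (y : ℤ) ^ 2) =
        ((x : ℤ) - y) * (B + nrm b c v * (x + y)) := by ring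
    rw [e2] at h
    rcases hpp.dvd_or_dvd h with h | h
    · exact absurd h (hsmall x y hx hy hxy)
    · exact h
  have q12 := hquot x1 x2 h1.1 h2.1 n12 h1.2 h2.2
  have q13 := hquot x1 x3 h1.1 h3.1 n13 h1.2 h3.2
  have hv : (p : ℤ) ∣ nrm b c v := by
    have h := dvd_sub q12 q13
    have e2 : B + nrm b c v * ((x1 : ℤ) + x2) - (B + nrm b c v * (x1 + x3)) =
        ((x2 : ℤ) - x3) * nrm b c v := by ring
    rw [e2] at h
    rcases hpp.dvd_or_dvd h with h | h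
    · exact absurd h (hsmall x2 x3 h2.1 h3.1 n23)
    · exact h
  have hBd : (p : ℤ) ∣ B := by
    have := dvd_sub q12 (Dvd.dvd.mul_right hv ((x1 : ℤ) + x2))
    simpa using this
  apply hpD
  rw [← hdisc]
  apply dvd_sub
  · exact Dvd.dvd.pow hBd two_ne_zero
  · exact Dvd.dvd.mul_left hv _

lemma exists_coprime_shift {b c : ℤ} {p p' : ℕ} (hp : p.Prime) (hp' : p'.Prime) (hp5 : 5 ≤ p)
    (hp5' : 5 ≤ p') (hpD : ¬ (p : ℤ) ∣ b ^ 2 - 4 * c) (hpD' : ¬ (p' : ℤ) ∣ b ^ 2 - 4 * c)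
    (u v : ℤ × ℤ) (hd : det u v ^ 2 = 1) :
    ∃ x : ℕ, x < 5 ∧ ¬ (p : ℤ) ∣ nrm b c (u.1 + x * v.1, u.2 + x * v.2) ∧
      ¬ (p' : ℤ) ∣ nrm b c (u.1 + x * v.1, u.2 + x * v.2) := by
  by_contra hcon
  push Not at hcon
  have h1 := few_roots hp hp5 hpD u v hd
  have h2 := few_roots hp' hp5' hpD' u v hd
  have hsub : range 5 ⊆
      (range 5).filter (fun x : ℕ => (p : ℤ) ∣ nrm b c (u.1 + x * v.1, u.2 + x * v.2)) ∪
      (range 5).filter (fun x : ℕ => (p' : ℤ) ∣ nrm b c (u.1 + x * v.1, u.2 + x * v.2)) := by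
    intro x hx
    rw [mem_range] at hx
    rw [mem_union, mem_filter, mem_filter, mem_range]
    by_cases h : (p : ℤ) ∣ nrm b c (u.1 + x * v.1, u.2 + x * v.2)
    · exact Or.inl ⟨hx, h⟩
    · exact Or.inr ⟨hx, hcon x hx h⟩
  have h3 := (card_le_card hsub).trans (card_union_le _ _)
  rw [card_range] at h3
  omega

/-- rich index -/
def Rich (b c : ℤ) (L : ℕ) (X2 : ℤ) (p p' : ℕ) (j : ℕ) : Prop :=
  ∃ v1 v2 : ℤ × ℤ, det v1 v2 = 1 ∧ 0 < v1.1 ∧ 0 < v2.1 ∧ v1.1 ≤ X2 ∧ v2.1 ≤ X2 ∧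
    (j : ℝ) ≤ L * ang b c v1 ∧ L * ang b c v2 < j + 1 ∧
    ¬ (p : ℤ) ∣ nrm b c v1 ∧ ¬ (p' : ℤ) ∣ nrm b c v1 ∧
    ¬ (p : ℤ) ∣ nrm b c v2 ∧ ¬ (p' : ℤ) ∣ nrm b c v2

/-- first step in a cone -/
lemma adj_exists (X : ℤ) (u v : ℤ × ℤ) (hdet : 0 < det u v) (hu : IsCoprime u.1 u.2)
    (hu1 : 0 < u.1) (hv1 : 0 < v.1) (huX : u.1 ≤ X) (hvX : v.1 ≤ X) :
    ∃ w : ℤ × ℤ, det u w = 1 ∧ 0 < w.1 ∧ w.1 ≤ X ∧ 0 ≤ det w v := by
  obtain ⟨p, q, hpq⟩ := hu
  set n : ℤ := det u v with hn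
  have hw0 : u.1 * p + u.2 * q = 1 := by linarith
  set α : ℤ := v.1 * p + v.2 * q with hα
  have hn' : n = u.1 * v.2 - u.2 * v.1 := rfl
  have hv1' : v.1 = α * u.1 + n * (-q) := by
    rw [hα, hn']
    linear_combination (-v.1) * hw0
  have hv2' : v.2 = α * u.2 + n * p := by
    rw [hα, hn']
    linear_combination (-v.2) * hw0
  set j : ℤ := (-α) % n with hj
  have hj0 : 0 ≤ j := Int.emod_nonneg _ hdet.ne'
  have hjn : j < n := Int.emod_lt_of_pos _ hdet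
  obtain ⟨t, ht⟩ : ∃ t : ℤ, α + j = n * t := by
    refine ⟨-((-α) / n), ?_⟩
    have := Int.emod_add_mul_ediv (-α) n
    rw [hj]; linarith
  set w : ℤ × ℤ := (t * u.1 - q, t * u.2 + p) with hw
  have hw1 : n * w.1 = v.1 + j * u.1 := by
    rw [hw]; simp only
    linear_combination (-u.1) * ht - hv1'
  have hw2 : n * w.2 = v.2 + j * u.2 := by
    rw [hw]; simp only
    linear_combination (-u.2) * ht - hv2'
  have hdetuw : det u w = 1 := by
    rw [hw]; simp only [det]; linear_combination hw0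
  refine ⟨w, hdetuw, ?_, ?_, ?_⟩
  · have : 0 < n * w.1 := by rw [hw1]; positivity
    exact (mul_pos_iff_of_pos_left hdet).1 this
  · have h3 : n * w.1 ≤ n * X := by
      rw [hw1]
      have hX : 0 ≤ X := by linarith
      have : j * u.1 ≤ (n - 1) * X := by
        calc j * u.1 ≤ j * X := by gcongr
          _ ≤ (n - 1) * X := by
            have : j ≤ n - 1 := by linarith
            gcongr
      linarith
    exact le_of_mul_le_mul_left h3 hdet
  · have h2 : n * det w v = n * j := by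
      have e : n * det w v = (n * w.1) * v.2 - (n * w.2) * v.1 := by
        simp only [det]; ring
      rw [e, hw1, hw2]
      linear_combination j * (-hn')
    rw [mul_left_cancel₀ hdet.ne' h2]
    exact hj0

lemma rich_of_pop {b c : ℤ} (hD : ¬ IsSquare (b ^ 2 - 4 * c)) {L : ℕ} {X3 : ℤ} {p p' : ℕ}
    (hp : p.Prime) (hp' : p'.Prime) (hp5 : 5 ≤ p)
    (hp5' : 5 ≤ p') (hpD : ¬ (p : ℤ) ∣ b ^ 2 - 4 * c) (hpD' : ¬ (p' : ℤ) ∣ b ^ 2 - 4 * c) {j : ℕ}
    (h0 : Pop b c (2 * L) X3 (2 * j)) (h1 : Pop b c (2 * L) X3 (2 * j + 1)) :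
    Rich b c L (25 * X3) p p' j := by
  obtain ⟨u0, a1, a2, a3, a4⟩ := h0
  obtain ⟨v0, b1, b2, b3, b4⟩ := h1
  obtain ⟨u, hcu, hu1, huX, hus, -⟩ := exists_primitive ∅ hD a1
  obtain ⟨v, hcv, hv1, hvX, hvs, -⟩ := exists_primitive ∅ hD b1
  have eu : ang b c u = ang b c u0 := by unfold ang; rw [hus]
  have ev : ang b c v = ang b c v0 := by unfold ang; rw [hvs]
  push_cast at a3 a4 b3 b4
  have ku1 : (j : ℝ) ≤ L * ang b c u := by rw [eu]; linarith
  have ku2 : (L : ℝ) * ang b c u < j + 1 / 2 := by rw [eu]; linarith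
  have kv1 : (j : ℝ) + 1 / 2 ≤ L * ang b c v := by rw [ev]; linarith
  have kv2 : (L : ℝ) * ang b c v < j + 1 := by rw [ev]; linarith
  have hLr : (0 : ℝ) ≤ L := by positivity
  have hdet : 0 < det u v := by
    by_contra hle
    push Not at hle
    have hd : 0 ≤ det v u := by simp only [det] at hle ⊢; linarith
    have := ang_mono (b := b) (c := c) (slope_le_of_det hv1 hu1 hd)
    have : (L : ℝ) * ang b c v ≤ L * ang b c u := by gcongr
    linarith
  obtain ⟨w, hw1, hw2, hw3, hw4⟩ := adj_exists X3 u v hdet hcu hu1 hv1 (huX.trans a2)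
    (hvX.trans b2)
  have huX3 : u.1 ≤ X3 := huX.trans a2
  have hwv := ang_mono (b := b) (c := c) (slope_le_of_det hw2 hv1 hw4)
  -- first shift
  obtain ⟨x, hx5, hx1, hx2⟩ := exists_coprime_shift hp hp' hp5 hp5' hpD hpD' u w
    (by rw [hw1]; norm_num)
  set v1 : ℤ × ℤ := (u.1 + x * w.1, u.2 + x * w.2) with hv1def
  have hdv1w : det v1 w = 1 := by
    simp only [det, hv1def] at hw1 ⊢
    linarith
  have hdwv1 : det w v1 ^ 2 = 1 := by
    have : det w v1 = - det v1 w := by simp only [det]; ring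
    rw [this, hdv1w]; norm_num
  obtain ⟨y, hy5, hy1, hy2⟩ := exists_coprime_shift hp hp' hp5 hp5' hpD hpD' w v1 hdwv1
  set v2 : ℤ × ℤ := (w.1 + y * v1.1, w.2 + y * v1.2) with hv2def
  have hx5' : (x : ℤ) ≤ 4 := by omega
  have hy5' : (y : ℤ) ≤ 4 := by omega
  have hx0 : (0 : ℤ) ≤ x := by positivity
  have hy0 : (0 : ℤ) ≤ y := by positivity
  have hX3 : 0 ≤ X3 := by linarith
  have hv1pos : 0 < v1.1 := by
    simp only [hv1def]
    have : 0 ≤ (x : ℤ) * w.1 := by positivity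
    linarith
  have hv1le : v1.1 ≤ 5 * X3 := by
    simp only [hv1def]
    have : (x : ℤ) * w.1 ≤ 4 * X3 := by gcongr
    linarith
  have hv2pos : 0 < v2.1 := by
    simp only [hv2def]
    have : 0 ≤ (y : ℤ) * v1.1 := by positivity
    linarith
  have hv2le : v2.1 ≤ 25 * X3 := by
    simp only [hv2def]
    have : (y : ℤ) * v1.1 ≤ 4 * (5 * X3) := by gcongr
    linarith
  have hd12 : det v1 v2 = 1 := by
    have : det v1 v2 = det v1 w := by simp only [det, hv2def]; ring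
    rw [this, hdv1w]
  have hduv1 : det u v1 = x := by
    have : det u v1 = x * det u w := by simp only [det, hv1def]; ring
    rw [this, hw1, mul_one]
  have hdv2w : det v2 w = y := by
    have : det v2 w = y * det v1 w := by simp only [det, hv2def]; ring
    rw [this, hdv1w, mul_one]
  have m1 := ang_mono (b := b) (c := c) (slope_le_of_det hu1 hv1pos (by rw [hduv1]; exact hx0))
  have m2 := ang_mono (b := b) (c := c) (slope_le_of_det hv2pos hw2 (by rw [hdv2w]; exact hy0))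
  refine ⟨v1, v2, hd12, hv1pos, hv2pos, by linarith, hv2le, ?_, ?_, hx1, hx2, hy1, hy2⟩
  · calc (j : ℝ) ≤ L * ang b c u := ku1
      _ ≤ L * ang b c v1 := by gcongr
  · calc (L : ℝ) * ang b c v2 ≤ L * ang b c w := by gcongr
      _ ≤ L * ang b c v := by gcongr
      _ < j + 1 := kv2

lemma unrich_count {b c : ℤ} (hD : ¬ IsSquare (b ^ 2 - 4 * c)) {L X3 : ℕ} {p p' : ℕ}
    (hp : p.Prime) (hp' : p'.Prime) (hp5 : 5 ≤ p)
    (hp5' : 5 ≤ p') (hpD : ¬ (p : ℤ) ∣ b ^ 2 - 4 * c) (hpD' : ¬ (p' : ℤ) ∣ b ^ 2 - 4 * c)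
    (hL : 0 < L) (hX3 : 0 < X3) (M' : ℕ) (hM' : (M' : ℝ) + 1 ≤ L * a0 b c) (U : Finset ℕ)
    (hU : ∀ j ∈ U, j < M' ∧ ¬ Rich b c L (25 * X3) p p' j) :
    (U.card : ℝ) ≤ 4096 * (L : ℝ) ^ 2 / (X3 : ℝ) ^ 2 := by
  classical
  -- choose an unpopulated half
  have hex : ∀ j ∈ U, ∃ i : ℕ, (i = 2 * j ∨ i = 2 * j + 1) ∧ ¬ Pop b c (2 * L) X3 i := by
    intro j hj
    by_contra hcon
    push Not at hcon
    exact (hU j hj).2 (rich_of_pop hD hp hp' hp5 hp5' hpD hpD' (hcon _ (Or.inl rfl))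
      (hcon _ (Or.inr rfl)))
  choose! f hf1 hf2 using hex
  have hinj : Set.InjOn f U := by
    intro x hx y hy hxy
    have h1 := hf1 x hx
    have h2 := hf1 y hy
    omega
  have hcard : (U.image f).card = U.card := card_image_of_injOn hinj
  have h := unpop_count (b := b) (c := c) (L := 2 * L) (X0 := X3) (by omega) hX3 (2 * M') (by
    push_cast; have := a0_pos b c; nlinarith) (U.image f) (by
    intro i hi
    rw [mem_image] at hi
    obtain ⟨j, hj, rfl⟩ := hi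
    have h1 := hf1 j hj
    have h2 := (hU j hj).1
    exact ⟨by omega, hf2 j hj⟩)
  rw [hcard] at h
  refine h.trans (le_of_eq ?_)
  push_cast
  ring

end Pool.Agent.Lib.MP_a17b09_nt
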