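import Pool.Agent.Lib.MP_a17b09_nt.M3.Cover
import Pool.Agent.Lib.MP_a17b09_nt.M3.Rich

set_option autoImplicit false

open Finset

namespace Pool.Agent.Lib.MP_a17b09_nt

lemma prim_mul {b c : ℤ} {v κ : ℤ × ℤ} (hv : IsCoprime v.1 v.2) (hκ : IsCoprime κ.1 κ.2)
    (hN : IsCoprime (nrm b c v) (nrm b c κ)) :
    IsCoprime (mulp b c v κ).1 (mulp b c v κ).2 := by
  obtain ⟨r, s, hrs⟩ := hκ
  obtain ⟨r', s', hrs'⟩ := hv
  obtain ⟨a, d, had⟩ := hN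
  refine ⟨a * (r * (v.1 + b * v.2) - s * v.2) + d * (r' * (κ.1 + b * κ.2) - s' * κ.2),
    a * (r * (c * v.2) + s * v.1) + d * (r' * (c * κ.2) + s' * κ.1), ?_⟩
  simp only [mulp, nrm] at *
  linear_combination had + a * (v.1 ^ 2 + b * v.1 * v.2 + c * v.2 ^ 2) * hrs +
    d * (κ.1 ^ 2 + b * κ.1 * κ.2 + c * κ.2 ^ 2) * hrs'

lemma prim_sq {b c : ℤ} {κ : ℤ × ℤ} (hκ : IsCoprime κ.1 κ.2)
    (hNT : IsCoprime (nrm b c κ) (2 * κ.1 + b * κ.2)) :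
    IsCoprime (mulp b c κ κ).1 (mulp b c κ κ).2 := by
  obtain ⟨r, s, hrs⟩ := hκ
  obtain ⟨a, d, had⟩ := hNT
  refine ⟨a * (r * (κ.1 + b * κ.2) - s * κ.2) + d * r + d * r * (r * (κ.1 + b * κ.2) - s * κ.2),
    a * (r * (c * κ.2) + s * κ.1) + d * s + d * r * (r * (c * κ.2) + s * κ.1), ?_⟩
  simp only [mulp, nrm] at *
  linear_combination had + (a * (κ.1 ^ 2 + b * κ.1 * κ.2 + c * κ.2 ^ 2) +
    d * (2 * κ.1 + b * κ.2) + d * r * (κ.1 ^ 2 + b * κ.1 * κ.2 + c * κ.2 ^ 2)) * hrs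

/-- no edge of class `r` near `j` -/
def GoodE (P : Set ℕ) (b c : ℤ) (L : ℕ) (Xm : ℤ) (W : ℕ) (r : ZMod 3) (j : ℕ) : Prop :=
  ∀ u v : ℤ × ℤ, det u v = 1 → 0 < u.1 → 0 < v.1 → u.1 ≤ Xm → v.1 ≤ Xm →
    (j : ℝ) - W ≤ L * ang b c u → L * ang b c v ≤ j + W → h3 P b c u + h3 P b c v ≠ r

lemma det_nonneg_of_ang {b c : ℤ} {u v : ℤ × ℤ} (hu : 0 < u.1) (hv : 0 < v.1)
    (h : ang b c u ≤ ang b c v) : 0 ≤ det u v := by
  have h1 : slope u ≤ slope v := (strictMono_AA (b : ℝ) (c : ℝ)).le_iff_le.1 h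
  unfold slope at h1
  have k1 : (0 : ℝ) < u.1 := by exact_mod_cast hu
  have k2 : (0 : ℝ) < v.1 := by exact_mod_cast hv
  rw [div_le_div_iff₀ k1 k2] at h1
  have : (0 : ℝ) ≤ ((det u v : ℤ) : ℝ) := by
    simp only [det]; push_cast; linarith
  exact_mod_cast this

lemma z3_shift : ∀ x y r : ZMod 3, x + y ≠ r → (x - 2 * r) + (y - 2 * r) ≠ 0 := by decide

lemma window_sign {P : Set ℕ} {b c : ℤ} {L : ℕ} (hL : 0 < L) {X1 Xm : ℤ} (hX : X1 ≤ Xm) {W : ℕ}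
    {r : ZMod 3} {j : ℕ} (hC : Cov b c L X1 W j) (hG : GoodE P b c L Xm W r j) :
    ∃ s : ZMod 3, s ≠ 0 ∧ ∀ v : ℤ × ℤ, IsCoprime v.1 v.2 → 0 < v.1 → v.1 ≤ Xm →
      (j : ℝ) - 1 ≤ L * ang b c v → L * ang b c v ≤ j + 2 →
      h3 P b c v - 2 * r = 0 ∨ h3 P b c v - 2 * r = s := by
  obtain ⟨p, q, h1, h2, h3', h4, h5, h6, h7, h8, h9⟩ := hC
  have hLr : (0 : ℝ) < L := by exact_mod_cast hL
  obtain ⟨s, hs, hcone⟩ := cone_lemma (fun u => h3 P b c u - 2 * r) p q h1 h2 h3' Xm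
    (h4.trans hX) (h5.trans hX) (by
      intro u v k1 k2 k3 k4 k5 k6 k7
      apply z3_shift
      apply hG u v k1 k2 k3 k4 k5
      · have := ang_mono (b := b) (c := c) (slope_le_of_det h2 k2 k6)
        calc (j : ℝ) - W ≤ L * ang b c p := h6
          _ ≤ L * ang b c u := by gcongr
      · have := ang_mono (b := b) (c := c) (slope_le_of_det k3 h3' k7)
        calc (L : ℝ) * ang b c v ≤ L * ang b c q := by gcongr
          _ ≤ j + W := h9)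
  refine ⟨s, hs, ?_⟩
  intro v k1 k2 k3 k4 k5
  apply hcone v k1 k2 k3
  · apply det_nonneg_of_ang (b := b) (c := c) h2 k2
    have : (L : ℝ) * ang b c p ≤ L * ang b c v := by linarith
    exact le_of_mul_le_mul_left this hLr
  · apply det_nonneg_of_ang (b := b) (c := c) k2 h3'
    have : (L : ℝ) * ang b c v ≤ L * ang b c q := by linarith
    exact le_of_mul_le_mul_left this hLr

lemma z3_pick : ∀ x y r s : ZMod 3, x + y ≠ r → (x - 2 * r = 0 ∨ x - 2 * r = s) →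
    (y - 2 * r = 0 ∨ y - 2 * r = s) → (x - 2 * r = s ∨ y - 2 * r = s) := by decide

lemma rich_value {P : Set ℕ} {b c : ℤ} {L : ℕ} {X2 Xm : ℤ} (hX : X2 ≤ Xm) {W : ℕ}
    (hW : 2 ≤ W) {r : ZMod 3} {j : ℕ} {p p' : ℕ} (hR : Rich b c L X2 p p' j)
    (hG : GoodE P b c L Xm W r j) {s : ZMod 3}
    (hs : ∀ v : ℤ × ℤ, IsCoprime v.1 v.2 → 0 < v.1 → v.1 ≤ Xm →
      (j : ℝ) - 1 ≤ L * ang b c v → L * ang b c v ≤ j + 2 →
      h3 P b c v - 2 * r = 0 ∨ h3 P b c v - 2 * r = s) :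
    ∃ v : ℤ × ℤ, IsCoprime v.1 v.2 ∧ 0 < v.1 ∧ v.1 ≤ X2 ∧ (j : ℝ) ≤ L * ang b c v ∧
      L * ang b c v < j + 1 ∧ ¬ (p : ℤ) ∣ nrm b c v ∧ ¬ (p' : ℤ) ∣ nrm b c v ∧
      h3 P b c v - 2 * r = s := by
  obtain ⟨v1, v2, h1, h2, h3', h4, h5, h6, h7, h8, h9, h10, h11⟩ := hR
  have hLr : (0 : ℝ) ≤ L := by positivity
  have hWr : (2 : ℝ) ≤ W := by exact_mod_cast hW
  have hm := ang_mono (b := b) (c := c) (slope_le_of_det h2 h3' (by rw [h1]; norm_num))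
  have hm' : (L : ℝ) * ang b c v1 ≤ L * ang b c v2 := by gcongr
  have hg := hG v1 v2 h1 h2 h3' (h4.trans hX) (h5.trans hX) (by linarith) (by linarith)
  have c1 := isCoprime_of_det h1
  have c2 := isCoprime_of_det' h1
  have k1 := hs v1 c1 h2 (h4.trans hX) (by linarith) (by linarith)
  have k2 := hs v2 c2 h3' (h5.trans hX) (by linarith) (by linarith)
  rcases z3_pick _ _ r s hg k1 k2 with h | h
  · exact ⟨v1, c1, h2, h4, h6, by linarith, h8, h9, h⟩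
  · exact ⟨v2, c2, h3', h5, by linarith, h7, h10, h11, h⟩

lemma z3_one_or_two : ∀ x : ZMod 3, x ≠ 0 → x = 1 ∨ x = 2 := by decide

lemma z3_A : ∀ x y : ZMod 3, x = 2 → (x + 2 = 0 ∨ x + 2 = y) → y = 1 := by decide

lemma z3_B : ∀ x y : ZMod 3, x = 1 → (x + 1 = 0 ∨ x + 1 = y) → y = 2 := by decide

lemma z3_ne : (1 : ZMod 3) ≠ 2 := by decide

lemma z3_final (s0 s1 s2 s3 s4 : ZMod 3) (n0 : s0 ≠ 0) (n1 : s1 ≠ 0) (n2 : s2 ≠ 0)
    (a0 : s0 + 2 = 0 ∨ s0 + 2 = s1) (a1 : s1 + 2 = 0 ∨ s1 + 2 = s2)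
    (a2 : s2 + 2 = 0 ∨ s2 + 2 = s3) (a3 : s3 + 2 = 0 ∨ s3 + 2 = s4)
    (b0 : s0 + 1 = 0 ∨ s0 + 1 = s2) (b1 : s1 + 1 = 0 ∨ s1 + 1 = s3)
    (b2 : s2 + 1 = 0 ∨ s2 + 1 = s4) : False := by
  rcases z3_one_or_two s0 n0 with h0 | h0
  · have h2 := z3_B _ _ h0 b0
    have h3 := z3_A _ _ h2 a2
    rcases z3_one_or_two s1 n1 with h1 | h1
    · exact z3_ne (h3.symm.trans (z3_B _ _ h1 b1))
    · exact z3_ne ((z3_A _ _ h1 a1).symm.trans h2)
  · have h1 := z3_A _ _ h0 a0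
    have h3 := z3_B _ _ h1 b1
    have h4 := z3_A _ _ h3 a3
    rcases z3_one_or_two s2 n2 with h2 | h2
    · exact z3_ne (h4.symm.trans (z3_B _ _ h2 b2))
    · exact z3_ne ((z3_A _ _ h2 a2).symm.trans h3)

/-- data attached to the multiplier -/
structure Mult (P : Set ℕ) (b c : ℤ) (κ : ℤ × ℤ) (p p' : ℕ) : Prop where
  sec : Sec b c κ
  sec2 : Sec b c (mulp b c κ κ)
  prim : IsCoprime κ.1 κ.2
  prim2 : IsCoprime (mulp b c κ κ).1 (mulp b c κ κ).2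
  nrm_eq : nrm b c κ = p * p'
  hp : p.Prime
  hp' : p'.Prime
  col2 : h3 P b c κ = 2

lemma chain3 {P : Set ℕ} {b c : ℤ} (hD : ¬ IsSquare (b ^ 2 - 4 * c)) {L : ℕ} (hL : 0 < L)
    {X1 X2 Xm : ℤ} {W : ℕ} (hW : 2 ≤ W) (h1m : X1 ≤ Xm) (h2m : X2 ≤ Xm) {κ : ℤ × ℤ} {p p' : ℕ}
    (hκ : Mult P b c κ p p') (hX : 2 * (X2 * κ.1) ≤ Xm) (hX' : 2 * (X2 * (mulp b c κ κ).1) ≤ Xm)
    (r : ZMod 3) (j : ℕ) (hj : (j : ℝ) + 4 * (L * ang b c κ) + 1 ≤ L * a0 b c) :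
    ∃ i : ℕ, i ≤ 4 ∧ ¬ (Cov b c L X1 W (j + ⌊(i : ℝ) * (L * ang b c κ)⌋₊) ∧
      GoodE P b c L Xm W r (j + ⌊(i : ℝ) * (L * ang b c κ)⌋₊) ∧
      Rich b c L X2 p p' (j + ⌊(i : ℝ) * (L * ang b c κ)⌋₊)) := by
  by_contra hcon
  push Not at hcon
  have hLr : (0 : ℝ) < L := by exact_mod_cast hL
  set A : ℝ := L * ang b c κ with hA
  have hA0 : 0 ≤ A := by
    rw [hA]; have := ang_nonneg hκ.sec; positivity
  set o : ℕ → ℕ := fun i => ⌊(i : ℝ) * A⌋₊ with ho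
  have ho1 : ∀ i : ℕ, (o i : ℝ) ≤ i * A := fun i => Nat.floor_le (by positivity)
  have ho2 : ∀ i : ℕ, (i : ℝ) * A < o i + 1 := fun i => Nat.lt_floor_add_one _
  have hall : ∀ i ≤ 4, ∃ s : ZMod 3, s ≠ 0 ∧ (∀ v : ℤ × ℤ, IsCoprime v.1 v.2 → 0 < v.1 →
      v.1 ≤ Xm → ((j + o i : ℕ) : ℝ) - 1 ≤ L * ang b c v → L * ang b c v ≤ (j + o i : ℕ) + 2 →
      h3 P b c v - 2 * r = 0 ∨ h3 P b c v - 2 * r = s) ∧
      ∃ v : ℤ × ℤ, IsCoprime v.1 v.2 ∧ 0 < v.1 ∧ v.1 ≤ X2 ∧ ((j + o i : ℕ) : ℝ) ≤ L * ang b c v ∧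
      L * ang b c v < (j + o i : ℕ) + 1 ∧ ¬ (p : ℤ) ∣ nrm b c v ∧ ¬ (p' : ℤ) ∣ nrm b c v ∧
      h3 P b c v - 2 * r = s := by
    intro i hi
    obtain ⟨hC, hG, hR⟩ := hcon i hi
    obtain ⟨s, hs, hwin⟩ := window_sign hL h1m hC hG
    exact ⟨s, hs, hwin, rich_value h2m hW hR hG hwin⟩
  choose! s hs hwin v hv using hall
  have hpp : Prime (p : ℤ) := Nat.prime_iff_prime_int.1 hκ.hp
  have hpp' : Prime (p' : ℤ) := Nat.prime_iff_prime_int.1 hκ.hp'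
  have hcopN : ∀ i ≤ 4, IsCoprime (nrm b c (v i)) (nrm b c κ) := by
    intro i hi
    obtain ⟨-, -, -, -, -, k1, k2, -⟩ := hv i hi
    rw [hκ.nrm_eq]
    apply IsCoprime.mul_right
    · exact ((hpp.coprime_iff_not_dvd).2 k1).symm
    · exact ((hpp'.coprime_iff_not_dvd).2 k2).symm
  have hsecv : ∀ i ≤ 4, Sec b c (v i) := by
    intro i hi
    obtain ⟨-, k2, -, k4, k5, -, -, -⟩ := hv i hi
    have hi' : (i : ℝ) ≤ 4 := by exact_mod_cast hi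
    apply sec_of_ang k2
    · have : 0 ≤ (L : ℝ) * ang b c (v i) := le_trans (by positivity) k4
      exact nonneg_of_mul_nonneg_right this hLr
    · have h5 : (i : ℝ) * A ≤ 4 * A := by gcongr
      have h6 := ho1 i
      push_cast at k5
      have : (L : ℝ) * ang b c (v i) ≤ L * a0 b c := by linarith
      exact le_of_mul_le_mul_left this hLr
  have hκ0 := hκ.sec.ne_zero
  have step1 : ∀ i, i + 1 ≤ 4 → s i + 2 = 0 ∨ s i + 2 = s (i + 1) := by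
    intro i hi
    obtain ⟨k1, k2, k3, k4, k5, k6, k7, k8⟩ := hv i (by omega)
    have hsv := hsecv i (by omega)
    have hb := mulp_fst_bounds hsv hκ.sec
    have hangm := ang_mulp hsv hκ.sec
    have hκ1 := hκ.sec.1
    have q1 := ho1 i
    have q2 := ho2 i
    have q3 := ho1 (i + 1)
    have q4 := ho2 (i + 1)
    push_cast at q3 q4 k4 k5
    have hw := hwin (i + 1) hi (mulp b c (v i) κ) (prim_mul k1 hκ.prim (hcopN i (by omega)))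
      hb.1 (hb.2.trans (le_trans (by gcongr) hX)) (by
        rw [hangm, mul_add]; push_cast
        linarith) (by
        rw [hangm, mul_add]; push_cast
        linarith)
    have e : h3 P b c (mulp b c (v i) κ) - 2 * r = s i + 2 := by
      rw [h3_mulp P hD hsv.ne_zero hκ0, hκ.col2, ← k8]; ring
    rw [e] at hw
    exact hw
  have step2 : ∀ i, i + 2 ≤ 4 → s i + 1 = 0 ∨ s i + 1 = s (i + 2) := by
    intro i hi
    obtain ⟨k1, k2, k3, k4, k5, k6, k7, k8⟩ := hv i (by omega)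
    have hsv := hsecv i (by omega)
    have hb := mulp_fst_bounds hsv hκ.sec2
    have hangm := ang_mulp hsv hκ.sec2
    have hangk := ang_mulp hκ.sec hκ.sec
    have hκ1 := hκ.sec2.1
    have q1 := ho1 i
    have q2 := ho2 i
    have q3 := ho1 (i + 2)
    have q4 := ho2 (i + 2)
    push_cast at q3 q4 k4 k5
    have hcop2 : IsCoprime (nrm b c (v i)) (nrm b c (mulp b c κ κ)) := by
      rw [nrm_mulp]
      exact IsCoprime.mul_right (hcopN i (by omega)) (hcopN i (by omega))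
    have hA2 : (L : ℝ) * ang b c (mulp b c κ κ) = 2 * A := by
      rw [hangk, hA]; ring
    have hw := hwin (i + 2) hi (mulp b c (v i) (mulp b c κ κ)) (prim_mul k1 hκ.prim2 hcop2)
      hb.1 (hb.2.trans (le_trans (by gcongr) hX')) (by
        rw [hangm, mul_add, hA2]; push_cast
        linarith) (by
        rw [hangm, mul_add, hA2]; push_cast
        linarith)
    have e : h3 P b c (mulp b c (v i) (mulp b c κ κ)) - 2 * r = s i + 1 := by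
      rw [h3_mulp P hD hsv.ne_zero (mulp_ne_zero hD hκ0 hκ0), h3_mulp P hD hκ0 hκ0, hκ.col2, ← k8]
      have : (2 : ZMod 3) + 2 = 1 := by decide
      rw [this]; ring
    rw [e] at hw
    exact hw
  exact z3_final (s 0) (s 1) (s 2) (s 3) (s 4) (hs 0 (by norm_num)) (hs 1 (by norm_num))
    (hs 2 (by norm_num)) (step1 0 (by norm_num))
    (step1 1 (by norm_num)) (step1 2 (by norm_num)) (step1 3 (by norm_num))
    (step2 0 (by norm_num)) (step2 1 (by norm_num)) (step2 2 (by norm_num))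

end Pool.Agent.Lib.MP_a17b09_nt
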