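import Pool.Agent.Lib.MP_a17b09_nt.Unpop
import Pool.Agent.Lib.MP_a17b09_nt.M3.Cone

set_option autoImplicit false

open Finset

namespace Pool.Agent.Lib.MP_a17b09_nt

/-- Farey refinement -/
lemma straddle (A : ℤ × ℤ → ℝ) (lo hi : ℝ) (X : ℤ)
    (hno : ∀ u : ℤ × ℤ, 0 < u.1 → u.1 ≤ X → 0 ≤ u.2 → ¬ (lo ≤ A u ∧ A u ≤ hi)) :
    ∀ n : ℕ, ∀ p q : ℤ × ℤ, det p q = 1 → 0 < p.1 → 0 < q.1 → 0 ≤ p.2 → 0 ≤ q.2 →
      p.1 ≤ X → q.1 ≤ X → A p < lo → hi < A q → X - (p.1 + q.1) < n →
      ∃ p' q' : ℤ × ℤ, det p' q' = 1 ∧ 0 < p'.1 ∧ 0 < q'.1 ∧ 0 ≤ p'.2 ∧ 0 ≤ q'.2 ∧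
        p'.1 ≤ X ∧ q'.1 ≤ X ∧ A p' < lo ∧ hi < A q' ∧ X < p'.1 + q'.1 := by
  intro n
  induction n with
  | zero =>
    intro p q h1 h2 h3 h4 h5 h6 h7 h8 h9 h10
    exact ⟨p, q, h1, h2, h3, h4, h5, h6, h7, h8, h9, by simpa using h10⟩
  | succ n ih =>
    intro p q h1 h2 h3 h4 h5 h6 h7 h8 h9 h10
    rcases lt_or_ge X (p.1 + q.1) with hX | hX
    · exact ⟨p, q, h1, h2, h3, h4, h5, h6, h7, h8, h9, hX⟩
    · have hd : p.1 * q.2 - p.2 * q.1 = 1 := h1
      have hm := hno (p.1 + q.1, p.2 + q.2) (by simp only; linarith) hX (by simp only; linarith)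
      push Not at hm
      push_cast at h10
      rcases lt_or_ge (A (p.1 + q.1, p.2 + q.2)) lo with hlo | hlo
      · apply ih (p.1 + q.1, p.2 + q.2) q
        · simp only [det]; linarith
        · simp only; linarith
        · exact h3
        · simp only; linarith
        · exact h5
        · exact hX
        · exact h7
        · exact hlo
        · exact h9
        · simp only; linarith
      · have hhi := hm hlo
        apply ih p (p.1 + q.1, p.2 + q.2)
        · simp only [det]; linarith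
        · exact h2
        · simp only; linarith
        · exact h4
        · simp only; linarith
        · exact h6
        · exact hX
        · exact h8
        · exact hhi
        · simp only; linarith

/-- general counting lemma -/
lemma count_near (A : ℕ → ℕ → ℝ) (K : ℕ) (ρ : ℕ → ℝ) (hρ : ∀ k, 0 ≤ ρ k) (U : Finset ℕ)
    (hU : ∀ j ∈ U, ∃ k y : ℕ, 1 ≤ k ∧ k ≤ K ∧ y ≤ k ∧ |(j : ℝ) + 1 / 2 - A k y| ≤ ρ k) :
    (U.card : ℝ) ≤ ∑ k ∈ Finset.Icc 1 K, ((k : ℝ) + 1) * (2 * ρ k + 1) := by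
  classical
  obtain ⟨F, hF⟩ : ∃ F : ℕ → ℕ → Finset ℕ, ∀ k y j : ℕ, j ∈ F k y ↔ (j ∈ U ∧
      |(j : ℝ) + 1 / 2 - A k y| ≤ ρ k) := by
    refine ⟨fun k y => U.filter (fun j : ℕ => |(j : ℝ) + 1 / 2 - A k y| ≤ ρ k), ?_⟩
    intro k y j
    rw [mem_filter]
  have hcover : U ⊆ (Finset.Icc 1 K).biUnion (fun k => (range (k + 1)).biUnion (F k)) := by
    intro j hj
    obtain ⟨k, y, hk, hkK, hyk, hjky⟩ := hU j hj
    rw [mem_biUnion]
    refine ⟨k, Finset.mem_Icc.2 ⟨hk, hkK⟩, ?_⟩
    rw [mem_biUnion]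
    exact ⟨y, mem_range.2 (by omega), (hF k y j).2 ⟨hj, hjky⟩⟩
  have ha := (card_le_card hcover).trans card_biUnion_le
  have ha' : (U.card : ℝ) ≤ ((∑ k ∈ Finset.Icc 1 K, ((range (k + 1)).biUnion (F k)).card : ℕ)
      : ℝ) := by exact_mod_cast ha
  refine ha'.trans ?_
  rw [Nat.cast_sum]
  apply sum_le_sum
  intro k hk
  have hb : (((range (k + 1)).biUnion (F k)).card : ℝ) ≤
      ((∑ y ∈ range (k + 1), (F k y).card : ℕ) : ℝ) := by exact_mod_cast card_biUnion_le
  refine hb.trans ?_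
  rw [Nat.cast_sum]
  have hc : ∀ y ∈ range (k + 1), ((F k y).card : ℝ) ≤ 2 * ρ k + 1 := by
    intro y _
    exact card_near (F k y) (A k y) (ρ k) (hρ k) (fun j hj => ((hF k y j).1 hj).2)
  refine (sum_le_sum hc).trans ?_
  rw [sum_const, card_range, nsmul_eq_mul]
  push_cast
  exact le_refl _

/-- covered window -/
def Cov (b c : ℤ) (L : ℕ) (X1 : ℤ) (W : ℕ) (j : ℕ) : Prop :=
  ∃ p q : ℤ × ℤ, det p q = 1 ∧ 0 < p.1 ∧ 0 < q.1 ∧ p.1 ≤ X1 ∧ q.1 ≤ X1 ∧
    (j : ℝ) - W ≤ L * ang b c p ∧ L * ang b c p ≤ j - 1 ∧ (j : ℝ) + 2 ≤ L * ang b c q ∧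
    L * ang b c q ≤ j + W

lemma ang_adj {b c : ℤ} {p q : ℤ × ℤ} (hd : det p q = 1) (hp : 0 < p.1) (hq : 0 < q.1) :
    ang b c q - ang b c p ≤ 8 / (p.1 * q.1) := by
  have h := AA_lipschitz (b : ℝ) (c : ℝ) (slope p) (slope q)
  have h1 : (0 : ℝ) < p.1 := by exact_mod_cast hp
  have h2 : (0 : ℝ) < q.1 := by exact_mod_cast hq
  have e : slope q - slope p = 1 / (p.1 * q.1) := by
    unfold slope
    have hd' : (p.1 : ℝ) * q.2 - p.2 * q.1 = 1 := by
      simp only [det] at hd
      exact_mod_cast hd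
    field_simp
    linarith
  rw [e, abs_of_pos (show (0 : ℝ) < 1 / ((p.1 : ℝ) * q.1) by positivity)] at h
  have h3 := le_abs_self (AA (b : ℝ) (c : ℝ) (slope q) - AA (b : ℝ) (c : ℝ) (slope p))
  unfold ang
  calc AA (b : ℝ) (c : ℝ) (slope q) - AA (b : ℝ) (c : ℝ) (slope p) ≤ _ := h3
    _ ≤ 8 * (1 / ((p.1 : ℝ) * q.1)) := h
    _ = 8 / ((p.1 : ℝ) * q.1) := by ring

lemma uncov_count {b c : ℤ} {L X1 W : ℕ} (hL : 0 < L) (hX1 : 8 * BB b c ≤ X1) (hW : 4 ≤ W)
    (M' : ℕ) (hM' : (M' : ℝ) + 2 ≤ L * a0 b c) (U : Finset ℕ)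
    (hU : ∀ j ∈ U, 2 ≤ j ∧ j < M' ∧ ¬ Cov b c L X1 W j) :
    (U.card : ℝ) ≤ 8 * (X1 : ℝ) ^ 2 + (3584 * (L : ℝ) ^ 2 / (W * (X1 : ℝ) ^ 2) +
      14 * (32 * (L : ℝ) / (W * X1)) ^ 2) := by
  classical
  have hLr : (0 : ℝ) < L := by exact_mod_cast hL
  have hBr := BBr_one b c
  have hX1r : 8 * (BB b c : ℝ) ≤ X1 := by exact_mod_cast hX1
  have hX1pos : (0 : ℝ) < X1 := by linarith
  have hWr : (4 : ℝ) ≤ W := by exact_mod_cast hW
  set K : ℕ := ⌊32 * (L : ℝ) / (W * X1)⌋₊ with hK
  set A : ℕ → ℕ → ℝ := fun k y => L * ang b c ((k : ℤ), (y : ℤ)) with hA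
  -- split
  set U1 := U.filter (fun j : ℕ => ∃ k y : ℕ, 1 ≤ k ∧ k ≤ X1 ∧ y ≤ k ∧
    |(j : ℝ) + 1 / 2 - A k y| ≤ 3 / 2) with hU1
  set U2 := U.filter (fun j : ℕ => ¬ ∃ k y : ℕ, 1 ≤ k ∧ k ≤ X1 ∧ y ≤ k ∧
    |(j : ℝ) + 1 / 2 - A k y| ≤ 3 / 2) with hU2
  have hcard : U.card = U1.card + U2.card := by
    rw [hU1, hU2, card_filter_add_card_filter_not]
  have c1 : (U1.card : ℝ) ≤ 8 * (X1 : ℝ) ^ 2 := by
    have h := count_near A X1 (fun _ => 3 / 2) (fun _ => by norm_num) U1 (by
      intro j hj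
      rw [hU1, mem_filter] at hj
      exact hj.2)
    refine h.trans ?_
    have : ∀ k ∈ Finset.Icc 1 X1, ((k : ℝ) + 1) * (2 * (3 / 2) + 1) ≤ 8 * X1 := by
      intro k hk
      have hk1 : (1 : ℝ) ≤ k := by exact_mod_cast (Finset.mem_Icc.1 hk).1
      have hk2 : (k : ℝ) ≤ X1 := by exact_mod_cast (Finset.mem_Icc.1 hk).2
      linarith
    refine (sum_le_sum this).trans ?_
    rw [sum_const, Nat.card_Icc, nsmul_eq_mul, Nat.add_sub_cancel]
    apply le_of_eq; ring
  -- the main part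
  have hang0 : ang b c ((1 : ℤ), (0 : ℤ)) = 0 := by
    unfold ang slope; simp [AA_zero]
  have hq0 : ang b c (8 * BB b c, 1) = a0 b c := by
    unfold ang slope a0
    push_cast
    rfl
  have hmain : ∀ j ∈ U2, ∃ k y : ℕ, 1 ≤ k ∧ k ≤ K ∧ y ≤ k ∧
      |(j : ℝ) + 1 / 2 - A k y| ≤ 16 * L / (k * X1) + 3 := by
    intro j hj
    rw [hU2, mem_filter] at hj
    obtain ⟨hjU, hno⟩ := hj
    obtain ⟨hj2, hjM, hjC⟩ := hU j hjU
    have hj2r : (2 : ℝ) ≤ j := by exact_mod_cast hj2
    have hjMr : (j : ℝ) + 1 ≤ M' := by exact_mod_cast hjM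
    have hno' : ∀ u : ℤ × ℤ, 0 < u.1 → u.1 ≤ X1 → 0 ≤ u.2 →
        ¬ ((j : ℝ) - 1 ≤ L * ang b c u ∧ L * ang b c u ≤ j + 2) := by
      intro u h1 h2 h3 ⟨h4, h5⟩
      apply hno
      have hs : Sec b c u := by
        apply sec_of_ang h1
        · have : 0 ≤ (L : ℝ) * ang b c u := by linarith
          exact nonneg_of_mul_nonneg_right this hLr
        · have : (L : ℝ) * ang b c u ≤ L * a0 b c := by linarith
          exact le_of_mul_le_mul_left this hLr
      obtain ⟨k, hk⟩ := Int.eq_ofNat_of_zero_le h1.le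
      obtain ⟨y, hy⟩ := Int.eq_ofNat_of_zero_le h3
      have hyk : u.2 ≤ u.1 := by
        have h6 := hs.2.2
        have h7 := one_le_BB b c
        calc u.2 = 1 * 1 * u.2 := by ring
          _ ≤ 8 * BB b c * u.2 := by gcongr; norm_num
          _ ≤ u.1 := h6
      refine ⟨k, y, by omega, by omega, by omega, ?_⟩
      have e : A k y = L * ang b c u := by
        simp only [hA]
        congr 2
        exact Prod.ext hk.symm hy.symm
      rw [e, abs_le]
      constructor <;> linarith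
    obtain ⟨p, q, h1, h2, h3, h4, h5, h6, h7, h8, h9, h10⟩ :=
      straddle (fun u => L * ang b c u) ((j : ℝ) - 1) (j + 2) X1 hno' X1 (1, 0) (8 * BB b c, 1)
        (by simp only [det]; ring) (by norm_num) (by have := BB_pos b c; simp only; linarith)
        (by norm_num) (by norm_num) (by have := one_le_BB b c; simp only; linarith) hX1
        (by rw [hang0]; linarith)
        (by rw [hq0]; linarith)
        (by have := one_le_BB b c; simp only; linarith)
    have h2r : (0 : ℝ) < p.1 := by exact_mod_cast h2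
    have h3r : (0 : ℝ) < q.1 := by exact_mod_cast h3
    have hadj := ang_adj (b := b) (c := c) h1 h2 h3
    have hLadj : L * ang b c q - L * ang b c p ≤ 8 * L / (p.1 * q.1) := by
      calc L * ang b c q - L * ang b c p = L * (ang b c q - ang b c p) := by ring
        _ ≤ L * (8 / (p.1 * q.1)) := by gcongr
        _ = 8 * L / (p.1 * q.1) := by ring
    have hwide : (W : ℝ) / 2 ≤ 8 * L / (p.1 * q.1) := by
      by_contra hlt
      push Not at hlt
      apply hjC
      refine ⟨p, q, h1, h2, h3, h6, h7, ?_, h8.le, h9.le, ?_⟩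
      · linarith
      · linarith
    have hprod : (p.1 : ℝ) * q.1 * W ≤ 16 * L := by
      rw [div_le_div_iff₀ (by norm_num) (by positivity)] at hwide
      linarith
    -- the small vector
    have hsmall : ∃ w : ℤ × ℤ, 0 < w.1 ∧ 0 ≤ w.2 ∧ (w.1 : ℝ) ≤ 32 * L / (W * X1) ∧
        |(j : ℝ) + 1 / 2 - L * ang b c w| ≤ 16 * L / (w.1 * X1) + 3 ∧ w.2 ≤ w.1 := by
      have h10r : (X1 : ℝ) < p.1 + q.1 := by exact_mod_cast h10
      have hslope : ∀ w : ℤ × ℤ, 0 < w.1 → 0 ≤ w.2 → Sec b c w ∨ w.2 ≤ w.1 → w.2 ≤ w.1 := by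
        intro w k1 k2 k3
        rcases k3 with k3 | k3
        · have h6 := k3.2.2
          have h7 := one_le_BB b c
          calc w.2 = 1 * 1 * w.2 := by ring
            _ ≤ 8 * BB b c * w.2 := by gcongr; norm_num
            _ ≤ w.1 := h6
        · exact k3
      rcases le_total (p.1 : ℝ) q.1 with hle | hle
      · -- q is large, p small
        have hq2 : (X1 : ℝ) / 2 ≤ q.1 := by linarith
        have hps : Sec b c p := by
          apply sec_of_ang h2
          · unfold ang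
            rw [← AA_zero (b : ℝ) (c : ℝ)]
            apply (strictMono_AA (b : ℝ) (c : ℝ)).monotone
            unfold slope
            have : (0 : ℝ) ≤ p.2 := by exact_mod_cast h4
            positivity
          · have : (L : ℝ) * ang b c p ≤ L * a0 b c := by linarith
            exact le_of_mul_le_mul_left this hLr
        refine ⟨p, h2, h4, ?_, ?_, hslope p h2 h4 (Or.inl hps)⟩
        · rw [le_div_iff₀ (by positivity)]
          have : (p.1 : ℝ) * (X1 / 2) * W ≤ p.1 * q.1 * W := by gcongr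
          linarith
        · have : 8 * (L : ℝ) / (p.1 * q.1) ≤ 16 * L / (p.1 * X1) := by
            rw [div_le_div_iff₀ (by positivity) (by positivity)]
            have : (p.1 : ℝ) * (X1 / 2) ≤ p.1 * q.1 := by gcongr
            nlinarith
          rw [abs_le]
          constructor <;> linarith
      · have hq2 : (X1 : ℝ) / 2 ≤ p.1 := by linarith
        by_cases hqq : q.2 ≤ q.1
        · refine ⟨q, h3, h5, ?_, ?_, hqq⟩
          · rw [le_div_iff₀ (by positivity)]
            have : (q.1 : ℝ) * (X1 / 2) * W ≤ q.1 * p.1 * W := by gcongr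
            linarith
          · have : 8 * (L : ℝ) / (p.1 * q.1) ≤ 16 * L / (q.1 * X1) := by
              rw [div_le_div_iff₀ (by positivity) (by positivity)]
              have : (q.1 : ℝ) * (X1 / 2) ≤ q.1 * p.1 := by gcongr
              nlinarith
            rw [abs_le]
            constructor <;> linarith
        · -- impossible: slope of q larger than one, but p has slope at most 1/8
          exfalso
          push Not at hqq
          have hps : Sec b c p := by
            apply sec_of_ang h2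
            · unfold ang
              rw [← AA_zero (b : ℝ) (c : ℝ)]
              apply (strictMono_AA (b : ℝ) (c : ℝ)).monotone
              unfold slope
              have : (0 : ℝ) ≤ p.2 := by exact_mod_cast h4
              positivity
            · have : (L : ℝ) * ang b c p ≤ L * a0 b c := by linarith
              exact le_of_mul_le_mul_left this hLr
          have hd : p.1 * q.2 - p.2 * q.1 = 1 := h1
          have h8p : 8 * p.2 ≤ p.1 := by
            have h7 := one_le_BB b c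
            calc 8 * p.2 = 8 * 1 * p.2 := by ring
              _ ≤ 8 * BB b c * p.2 := by gcongr
              _ ≤ p.1 := hps.2.2
          have h11 : p.1 * (q.1 + 1) ≤ p.1 * q.2 := by
            apply mul_le_mul_of_nonneg_left _ h2.le
            exact hqq
          have h12 : (8 * p.2) * q.1 ≤ p.1 * q.1 := mul_le_mul_of_nonneg_right h8p h3.le
          have h13 : 0 < p.1 * q.1 := mul_pos h2 h3
          have hp2q : 0 ≤ p.2 * q.1 := mul_nonneg h4 h3.le
          have hB1 := one_le_BB b c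
          have hpbig : (4 : ℝ) ≤ p.1 := by linarith
          have hpbig' : 4 ≤ p.1 := by exact_mod_cast hpbig
          have e1 : p.1 * (q.1 + 1) = p.1 * q.1 + p.1 := by ring
          have e2 : (8 * p.2) * q.1 = 8 * (p.2 * q.1) := by ring
          linarith
    obtain ⟨w, k1, k2, k3, k4, k5⟩ := hsmall
    obtain ⟨k, hk⟩ := Int.eq_ofNat_of_zero_le k1.le
    obtain ⟨y, hy⟩ := Int.eq_ofNat_of_zero_le k2
    have hwk : (w.1 : ℝ) = k := by rw [hk]; push_cast; rfl
    refine ⟨k, y, by omega, ?_, by omega, ?_⟩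
    · apply Nat.le_floor
      rw [← hwk]; exact k3
    · have e : A k y = L * ang b c w := by
        simp only [hA]
        congr 2
        exact Prod.ext hk.symm hy.symm
      rw [e, ← hwk]; exact k4
  have c2 : (U2.card : ℝ) ≤ 3584 * (L : ℝ) ^ 2 / (W * (X1 : ℝ) ^ 2) +
      14 * (32 * (L : ℝ) / (W * X1)) ^ 2 := by
    have h := count_near A K (fun k => 16 * L / (k * X1) + 3) (fun k => by positivity) U2 hmain
    refine h.trans ?_
    have hKr : (K : ℝ) ≤ 32 * L / (W * X1) := Nat.floor_le (by positivity)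
    have : ∀ k ∈ Finset.Icc 1 K, ((k : ℝ) + 1) * (2 * (16 * L / (k * X1) + 3) + 1) ≤
        64 * L / X1 + 14 * K := by
      intro k hk
      have hk1 : (1 : ℝ) ≤ k := by exact_mod_cast (Finset.mem_Icc.1 hk).1
      have hk2 : (k : ℝ) ≤ K := by exact_mod_cast (Finset.mem_Icc.1 hk).2
      have hk0 : (0 : ℝ) < k := by linarith
      have e1 : (k : ℝ) * (16 * L / (k * X1)) = 16 * L / X1 := by field_simp
      have e2 : 16 * (L : ℝ) / (k * X1) ≤ 16 * L / X1 := by
        apply div_le_div_of_nonneg_left (by positivity) (by positivity)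
        nlinarith
      calc ((k : ℝ) + 1) * (2 * (16 * L / (k * X1) + 3) + 1)
          = 2 * (k * (16 * L / (k * X1))) + 2 * (16 * L / (k * X1)) + 7 * (k + 1) := by ring
        _ ≤ 2 * (16 * L / X1) + 2 * (16 * L / X1) + 7 * (k + k) := by
            rw [e1]; gcongr
        _ ≤ 64 * L / X1 + 14 * K := by
            have : 2 * (16 * (L : ℝ) / X1) + 2 * (16 * L / X1) = 64 * L / X1 := by ring
            linarith
    refine (sum_le_sum this).trans ?_
    rw [sum_const, Nat.card_Icc, nsmul_eq_mul, Nat.add_sub_cancel]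
    have hK0 : (0 : ℝ) ≤ K := by positivity
    calc (K : ℝ) * (64 * L / X1 + 14 * K) = K * (64 * L / X1) + 14 * K ^ 2 := by ring
      _ ≤ (32 * L / (W * X1)) * (64 * L / X1) + 14 * (32 * L / (W * X1)) ^ 2 := by gcongr
      _ ≤ 3584 * (L : ℝ) ^ 2 / (W * (X1 : ℝ) ^ 2) + 14 * (32 * (L : ℝ) / (W * X1)) ^ 2 := by
          have : (32 * (L : ℝ) / (W * X1)) * (64 * L / X1) = 2048 * L ^ 2 / (W * X1 ^ 2) := by
            field_simp
            ring
          rw [this]
          gcongr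
          norm_num
  rw [hcard]
  push_cast
  linarith

end Pool.Agent.Lib.MP_a17b09_nt
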