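import Pool.Agent.Lib.MP_a17b09_nt.M3.Main3

set_option autoImplicit false

open Finset Filter

namespace Pool.Agent.Lib.MP_a17b09_nt

lemma divs_bound (b c : ℤ) (θ : ℝ) (hθ : 0 < θ) :
    ∃ C : ℝ, 1 ≤ C ∧ ∀ N : ℕ, 1 ≤ N → ∀ t ∈ Finset.Icc 1 N, 0 < ff b c t →
      (ff b c t).natAbs.divisors.card ≤ ⌊C * (N : ℝ) ^ (2 * θ)⌋₊ := by
  obtain ⟨Cd, hCd, hdiv⟩ := card_divisors_le θ hθ
  set Cf : ℝ := 1 + |(b : ℝ)| + |(c : ℝ)| with hCf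
  have hCf1 : 1 ≤ Cf := by
    rw [hCf]
    have := abs_nonneg (b : ℝ)
    have := abs_nonneg (c : ℝ)
    linarith
  refine ⟨Cd * Cf ^ θ, ?_, ?_⟩
  · have h1 : 1 ≤ Cf ^ θ := Real.one_le_rpow hCf1 hθ.le
    calc (1 : ℝ) = 1 * 1 := by ring
      _ ≤ Cd * Cf ^ θ := by gcongr
  intro N hN t ht hf
  have hN1 : (1 : ℝ) ≤ N := by exact_mod_cast hN
  have hNpos : (0 : ℝ) < N := by linarith
  rw [Finset.mem_Icc] at ht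
  apply Nat.le_floor
  have h3 := hdiv (ff b c t).natAbs (by omega)
  refine h3.trans ?_
  have h4 : (((ff b c t).natAbs : ℕ) : ℝ) ≤ Cf * (N : ℝ) ^ 2 := by
    have e : (((ff b c t).natAbs : ℕ) : ℝ) = ((ff b c t : ℤ) : ℝ) := by
      rw [Nat.cast_natAbs, abs_of_pos hf]
    rw [e]
    unfold ff
    push_cast
    have ht1 : (1 : ℝ) ≤ t := by exact_mod_cast ht.1
    have ht2 : (t : ℝ) ≤ N := by exact_mod_cast ht.2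
    have hN2 : (N : ℝ) ≤ (N : ℝ) ^ 2 := by nlinarith
    have hN3 : (1 : ℝ) ≤ (N : ℝ) ^ 2 := one_le_pow₀ hN1
    have hb1 : (b : ℝ) * t ≤ |(b : ℝ)| * (N : ℝ) ^ 2 := by
      calc (b : ℝ) * t ≤ |(b : ℝ)| * t := by gcongr; exact le_abs_self _
        _ ≤ |(b : ℝ)| * N := by gcongr
        _ ≤ |(b : ℝ)| * (N : ℝ) ^ 2 := by gcongr
    have hc1 : (c : ℝ) ≤ |(c : ℝ)| * (N : ℝ) ^ 2 := by
      calc (c : ℝ) ≤ |(c : ℝ)| := le_abs_self _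
        _ = |(c : ℝ)| * 1 := by ring
        _ ≤ |(c : ℝ)| * (N : ℝ) ^ 2 := by gcongr
    have ht3 : (t : ℝ) ^ 2 ≤ (N : ℝ) ^ 2 := by gcongr
    rw [hCf]
    calc (t : ℝ) ^ 2 + b * t + c ≤ (N : ℝ) ^ 2 + |(b : ℝ)| * (N : ℝ) ^ 2 +
          |(c : ℝ)| * (N : ℝ) ^ 2 := by linarith
      _ = _ := by ring
  calc Cd * (((ff b c t).natAbs : ℕ) : ℝ) ^ θ ≤ Cd * (Cf * (N : ℝ) ^ 2) ^ θ := by gcongr
    _ = Cd * Cf ^ θ * (N : ℝ) ^ (2 * θ) := by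
      rw [Real.mul_rpow (by linarith) (by positivity), mul_assoc]
      congr 2
      rw [← Real.rpow_natCast, ← Real.rpow_mul hNpos.le]
      norm_num

theorem uniform3 {b c : ℤ} (hD : ¬ IsSquare (b ^ 2 - 4 * c)) (ε : ℝ) (hε : 0 < ε) :
    ∃ m0 : ℕ, 0 < m0 ∧ ∃ H : ℕ, ∃ δ : ℝ, 0 < δ ∧ ∀ᶠ N : ℕ in atTop, ∀ P : Set ℕ,
      (∃ ps : Finset ℕ, H < ps.card ∧ ∀ p ∈ ps, p ∈ P ∧ p.Prime ∧ p ≡ 1 [MOD m0] ∧
        (p : ℝ) ≤ (N : ℝ) ^ δ) →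
      ∀ r : ZMod 3, (N : ℝ) ^ (1 - ε) ≤ ((goodset3 P b c r N).card : ℝ) := by
  -- reduce to small ε
  wlog hε1 : ε ≤ 1 / 2 generalizing ε
  · push Not at hε1
    obtain ⟨m0, hm0, H, δ, hδ, h⟩ := this (1 / 2) (by norm_num) le_rfl
    refine ⟨m0, hm0, H, δ, hδ, ?_⟩
    filter_upwards [h, eventually_gt_atTop 0] with N hN hN0 P hP r
    have hN1 : (1 : ℝ) ≤ N := by exact_mod_cast hN0
    refine le_trans ?_ (hN P hP r)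
    exact Real.rpow_le_rpow_of_exponent_le hN1 (by linarith)
  set θ : ℝ := ε / 12 with hθ
  have hθ0 : 0 < θ := by positivity
  have hθ1 : θ ≤ 1 / 24 := by rw [hθ]; linarith
  obtain ⟨K, hK, B', hB', hcore⟩ := core3 hD θ hθ0 (by linarith)
  obtain ⟨m0, hm0, H, C4, hC4, hmult⟩ := exists_mult hD K hK
  obtain ⟨Cd, hCd, hdivs⟩ := divs_bound b c θ hθ0
  refine ⟨m0, hm0, H, θ / 8, by positivity, ?_⟩
  have hL : Tendsto (fun N : ℕ => ⌊(N : ℝ) ^ (1 - 5 * θ)⌋₊) atTop atTop :=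
    tendsto_nat_floor_atTop.comp
      ((tendsto_rpow_atTop (by linarith)).comp tendsto_natCast_atTop_atTop)
  have hev := hL.eventually hcore
  have hev1 := ev_rpow (θ + (1 - 5 * θ) * (1 + 2 * θ)) 1 (80000 * C4 ^ 4) (by nlinarith)
  have hev2 := ev_rpow (1 - 12 * θ + 2 * θ) ((1 - 5 * θ) * (1 - 3 * θ)) (Cd * 2 / B')
    (by nlinarith)
  filter_upwards [hev, hev1, hev2, eventually_gt_atTop 0] with N h0 h1 h2 hN0 P hP r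
  have hN1 : (1 : ℝ) ≤ N := by exact_mod_cast hN0
  have hNpos : (0 : ℝ) < N := by linarith
  obtain ⟨ps, hps1, hps2⟩ := hP
  obtain ⟨p, hp, p', hp', hp5, hp5', hpD, hpD', κ, hκ, hκK, hκ1⟩ := hmult P ps hps1
    (fun p hp => ⟨(hps2 p hp).1, (hps2 p hp).2.1, (hps2 p hp).2.2.1⟩)
  have hpN := (hps2 p hp).2.2.2
  have hpN' := (hps2 p' hp').2.2.2
  set L : ℕ := ⌊(N : ℝ) ^ (1 - 5 * θ)⌋₊ with hLdef
  have hL1 : (L : ℝ) ≤ (N : ℝ) ^ (1 - 5 * θ) := Nat.floor_le (by positivity)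
  have hL2 : (N : ℝ) ^ (1 - 5 * θ) / 2 ≤ L := by
    have h3 : 1 ≤ (N : ℝ) ^ (1 - 5 * θ) := Real.one_le_rpow hN1 (by linarith)
    have h4 : (N : ℝ) ^ (1 - 5 * θ) < L + 1 := Nat.lt_floor_add_one _
    have h5 : 1 ≤ L := by
      rw [hLdef]; exact Nat.le_floor (by simpa using h3)
    have h6 : (1 : ℝ) ≤ L := by exact_mod_cast h5
    linarith
  have hκ0 : (0 : ℝ) ≤ κ.1 := by
    have : (0 : ℤ) ≤ κ.1 := hκ.sec.1.le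
    exact_mod_cast this
  have hκN : (κ.1 : ℝ) ^ 4 ≤ C4 ^ 4 * (N : ℝ) ^ θ := by
    have h3 : (κ.1 : ℝ) ≤ C4 * ((N : ℝ) ^ (θ / 8) * (N : ℝ) ^ (θ / 8)) := by
      refine hκ1.trans ?_
      gcongr
    calc (κ.1 : ℝ) ^ 4 ≤ (C4 * ((N : ℝ) ^ (θ / 8) * (N : ℝ) ^ (θ / 8))) ^ 4 := by gcongr
      _ = C4 ^ 4 * ((N : ℝ) ^ (θ / 8)) ^ 8 := by ring
      _ = C4 ^ 4 * (N : ℝ) ^ θ := by
        congr 1
        rw [← Real.rpow_natCast, ← Real.rpow_mul hNpos.le]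
        congr 1
        push_cast
        ring
  have hAN : 80000 * (κ.1 : ℝ) ^ 4 * (L : ℝ) ^ (1 + 2 * θ) ≤ N := by
    calc 80000 * (κ.1 : ℝ) ^ 4 * (L : ℝ) ^ (1 + 2 * θ)
        ≤ 80000 * (C4 ^ 4 * (N : ℝ) ^ θ) * ((N : ℝ) ^ (1 - 5 * θ)) ^ (1 + 2 * θ) := by gcongr
      _ = 80000 * C4 ^ 4 * ((N : ℝ) ^ θ * (N : ℝ) ^ ((1 - 5 * θ) * (1 + 2 * θ))) := by
        rw [← Real.rpow_mul hNpos.le]; ring
      _ = 80000 * C4 ^ 4 * (N : ℝ) ^ (θ + (1 - 5 * θ) * (1 + 2 * θ)) := by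
        rw [← Real.rpow_add hNpos]
      _ ≤ (N : ℝ) ^ (1 : ℝ) := h1
      _ = N := Real.rpow_one _
  set Dm : ℕ := ⌊Cd * (N : ℝ) ^ (2 * θ)⌋₊ with hDm
  have hDm1 : (Dm : ℝ) ≤ Cd * (N : ℝ) ^ (2 * θ) := Nat.floor_le (by positivity)
  have hfin := h0 P p p' κ hp5 hp5' hpD hpD' hκ hκK r N Dm hAN (hdivs N hN0)
  set s : ℝ := ((goodset3 P b c r N).card : ℝ) with hs
  have hs0 : 0 ≤ s := by rw [hs]; positivity
  have hK0 : 0 < Cd * (N : ℝ) ^ (2 * θ) := by positivity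
  have hLp : (N : ℝ) ^ ((1 - 5 * θ) * (1 - 3 * θ)) / 2 ≤ (L : ℝ) ^ (1 - 3 * θ) := by
    have h3 : ((N : ℝ) ^ (1 - 5 * θ) / 2) ^ (1 - 3 * θ) ≤ (L : ℝ) ^ (1 - 3 * θ) := by
      apply Real.rpow_le_rpow (by positivity) hL2 (by linarith)
    refine le_trans ?_ h3
    rw [Real.div_rpow (by positivity) (by norm_num), ← Real.rpow_mul hNpos.le]
    have h4 : (2 : ℝ) ^ (1 - 3 * θ) ≤ 2 := by
      calc (2 : ℝ) ^ (1 - 3 * θ) ≤ (2 : ℝ) ^ (1 : ℝ) :=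
            Real.rpow_le_rpow_of_exponent_le (by norm_num) (by linarith)
        _ = 2 := Real.rpow_one _
    have h5 : (0 : ℝ) < (2 : ℝ) ^ (1 - 3 * θ) := by positivity
    gcongr
  have h7 : B' * ((N : ℝ) ^ ((1 - 5 * θ) * (1 - 3 * θ)) / 2) ≤ (Cd * (N : ℝ) ^ (2 * θ)) * s := by
    calc B' * ((N : ℝ) ^ ((1 - 5 * θ) * (1 - 3 * θ)) / 2) ≤ B' * (L : ℝ) ^ (1 - 3 * θ) := by gcongr
      _ ≤ Dm * s := hfin
      _ ≤ _ := by gcongr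
  have h8 : (Cd * (N : ℝ) ^ (2 * θ)) * (N : ℝ) ^ (1 - ε) ≤
      B' * ((N : ℝ) ^ ((1 - 5 * θ) * (1 - 3 * θ)) / 2) := by
    have e1 : (N : ℝ) ^ (2 * θ) * (N : ℝ) ^ (1 - ε) = (N : ℝ) ^ (1 - 12 * θ + 2 * θ) := by
      rw [← Real.rpow_add hNpos]; congr 1; rw [hθ]; ring
    calc (Cd * (N : ℝ) ^ (2 * θ)) * (N : ℝ) ^ (1 - ε)
        = Cd * ((N : ℝ) ^ (2 * θ) * (N : ℝ) ^ (1 - ε)) := by ring
      _ = (B' / 2) * (Cd * 2 / B' * (N : ℝ) ^ (1 - 12 * θ + 2 * θ)) := by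
          rw [e1]; field_simp
      _ ≤ (B' / 2) * (N : ℝ) ^ ((1 - 5 * θ) * (1 - 3 * θ)) := by gcongr
      _ = _ := by ring
  exact le_of_mul_le_mul_left (h8.trans h7) hK0

end Pool.Agent.Lib.MP_a17b09_nt
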