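import Pool.Agent.Lib.MP_a17b09_nt.Legendre
import Pool.Agent.Lib.MP_a17b09_nt.M3.Chain3

set_option autoImplicit false

open Finset

namespace Pool.Agent.Lib.MP_a17b09_nt

lemma cnt_prime {P : Set ℕ} {p : ℕ} (hp : p.Prime) (hP : p ∈ P) : cnt P p = 1 := by
  unfold cnt
  rw [Nat.primeFactorsList_prime hp]
  simp [hP]

lemma sec_sq {b c : ℤ} {u : ℤ × ℤ} (h1 : 0 < u.1) (h2 : 0 ≤ u.2)
    (h3' : 32 * BB b c * u.2 ≤ u.1) : Sec b c (mulp b c u u) := by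
  have hB := one_le_BB b c
  have hb := abs_le.1 (abs_b_le b c)
  have hc := abs_le.1 (abs_c_le b c)
  set w : ℤ := BB b c * u.2 with hw
  have hw0 : 0 ≤ w := by rw [hw]; positivity
  have hw1 : 32 * w ≤ u.1 := by rw [hw]; linarith
  have huw : u.2 ≤ w := by
    rw [hw]
    calc u.2 = 1 * u.2 := by ring
      _ ≤ BB b c * u.2 := by gcongr
  have hww : 1024 * w ^ 2 ≤ u.1 ^ 2 := by
    calc 1024 * w ^ 2 = (32 * w) ^ 2 := by ring
      _ ≤ u.1 ^ 2 := by gcongr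
  have hBu : BB b c * u.2 ^ 2 ≤ w ^ 2 := by
    calc BB b c * u.2 ^ 2 = w * u.2 := by rw [hw]; ring
      _ ≤ w * w := by gcongr
      _ = w ^ 2 := by ring
  have hcu : |c * u.2 ^ 2| ≤ w ^ 2 := by
    rw [abs_mul, abs_of_nonneg (sq_nonneg u.2)]
    calc |c| * u.2 ^ 2 ≤ BB b c * u.2 ^ 2 := by
          have := abs_c_le b c
          gcongr
      _ ≤ w ^ 2 := hBu
  have hbu : |b * u.2 ^ 2| ≤ w * u.2 := by
    rw [abs_mul, abs_of_nonneg (sq_nonneg u.2)]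
    calc |b| * u.2 ^ 2 ≤ BB b c * u.2 ^ 2 := by
          have := abs_b_le b c
          gcongr
      _ = w * u.2 := by rw [hw]; ring
  have hcu' := abs_le.1 hcu
  have hbu' := abs_le.1 hbu
  have hpos : 0 < u.1 ^ 2 := by positivity
  have hwu : w * u.2 ≤ u.1 * u.2 := by
    have : w ≤ u.1 := by linarith
    gcongr
  have e1 : (mulp b c u u).1 = u.1 ^ 2 - c * u.2 ^ 2 := by simp only [mulp]; ring
  have e2 : (mulp b c u u).2 = 2 * (u.1 * u.2) + b * u.2 ^ 2 := by simp only [mulp]; ring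
  have huu : 0 ≤ u.1 * u.2 := by positivity
  refine ⟨?_, ?_, ?_⟩
  · rw [e1]; linarith
  · rw [e2]; linarith
  · rw [e1, e2]
    have k1 : 32 * (BB b c * (u.1 * u.2)) ≤ u.1 ^ 2 := by
      calc 32 * (BB b c * (u.1 * u.2)) = (32 * w) * u.1 := by rw [hw]; ring
        _ ≤ u.1 * u.1 := by gcongr
        _ = u.1 ^ 2 := by ring
    have k2 : BB b c * (b * u.2 ^ 2) ≤ w ^ 2 := by
      calc BB b c * (b * u.2 ^ 2) ≤ BB b c * (w * u.2) :=
            mul_le_mul_of_nonneg_left hbu'.2 (by linarith)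
        _ = w ^ 2 := by rw [hw]; ring
    have e3 : 8 * BB b c * (2 * (u.1 * u.2) + b * u.2 ^ 2) =
        16 * (BB b c * (u.1 * u.2)) + 8 * (BB b c * (b * u.2 ^ 2)) := by ring
    rw [e3]
    linarith

/-- algebraic part -/
lemma mult_aux {P : Set ℕ} {b c : ℤ} {p p' : ℕ} (hp : p.Prime) (hp' : p'.Prime) (hne : p ≠ p')
    (hpP : p ∈ P) (hpP' : p' ∈ P) (hodd : Odd p) (hodd' : Odd p') (x y x' y' z : ℤ)
    (hz : z ≠ 0) (hpD : ¬ (p : ℤ) ∣ b ^ 2 - 4 * c) (hpD' : ¬ (p' : ℤ) ∣ b ^ 2 - 4 * c)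
    (h1 : x ^ 2 - (b ^ 2 - 4 * c) * y ^ 2 = p * z ^ 2)
    (h2 : x' ^ 2 - (b ^ 2 - 4 * c) * y' ^ 2 = p' * z ^ 2)
    (hx : z ^ 2 ∣ x' - x) (hy : z ^ 2 ∣ y' - y)
    (hpos : 0 < x' * y - x * y')
    (K : ℤ) (hK : 32 ≤ K)
    (hsm : (2 * K + 1) * BB b c * (x' * y - x * y') ≤ x * x' - (b ^ 2 - 4 * c) * y * y') :
    ∃ κ : ℤ × ℤ, Mult P b c κ p p' ∧ K * κ.2 ≤ κ.1 ∧
      κ.1 ≤ 2 * (x * x' - (b ^ 2 - 4 * c) * y * y') := by
  set D : ℤ := b ^ 2 - 4 * c with hD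
  obtain ⟨u, hu⟩ := hx
  obtain ⟨w, hw⟩ := hy
  have hx' : x' = x + z ^ 2 * u := by linarith
  have hy' : y' = y + z ^ 2 * w := by linarith
  set X : ℤ := p + x * u - D * y * w with hX
  set Y : ℤ := u * y - x * w with hY
  have eX : x * x' - D * y * y' = z ^ 2 * X := by
    rw [hX, hx', hy']
    linear_combination h1
  have eY : x' * y - x * y' = z ^ 2 * Y := by
    rw [hY, hx', hy']; ring
  have hz2 : 0 < z ^ 2 := by positivity
  rw [eX, eY] at hsm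
  rw [eY] at hpos
  rw [eX]
  have hYpos : 0 < Y := (mul_pos_iff_of_pos_left hz2).1 hpos
  have hXYK : (2 * K + 1) * BB b c * Y ≤ X := by
    have : z ^ 2 * ((2 * K + 1) * BB b c * Y) ≤ z ^ 2 * X := by linarith
    exact le_of_mul_le_mul_left this hz2
  have hnorm : X ^ 2 - D * Y ^ 2 = p * p' := by
    have hz4 : (z ^ 2) ^ 2 ≠ 0 := by positivity
    have : (z ^ 2) ^ 2 * (X ^ 2 - D * Y ^ 2) = (z ^ 2) ^ 2 * (p * p') := by
      calc (z ^ 2) ^ 2 * (X ^ 2 - D * Y ^ 2) = (z ^ 2 * X) ^ 2 - D * (z ^ 2 * Y) ^ 2 := by ring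
        _ = (x * x' - D * y * y') ^ 2 - D * (x' * y - x * y') ^ 2 := by rw [eX, eY]
        _ = (x ^ 2 - D * y ^ 2) * (x' ^ 2 - D * y' ^ 2) := by ring
        _ = (z ^ 2) ^ 2 * (p * p') := by rw [h1, h2]; ring
    exact mul_left_cancel₀ hz4 this
  have hB := one_le_BB b c
  have hXY : 65 * BB b c * Y ≤ X := by
    refine le_trans ?_ hXYK
    have : 0 ≤ BB b c * Y := by positivity
    nlinarith
  have hb := abs_le.1 (abs_b_le b c)
  have hbY : |b * Y| ≤ BB b c * Y := by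
    rw [abs_mul, abs_of_pos hYpos]
    have := abs_b_le b c
    gcongr
  have hbY' := abs_le.1 hbY
  have hYB : Y ≤ BB b c * Y := by
    calc Y = 1 * Y := by ring
      _ ≤ BB b c * Y := by gcongr
  set κ : ℤ × ℤ := (X - b * Y, 2 * Y) with hκ
  have hnκ : nrm b c κ = p * p' := by
    rw [← hnorm, hD, hκ]; simp only [nrm]; ring
  have hk1 : 0 < κ.1 := by simp only [hκ]; linarith
  have hk2 : 0 ≤ κ.2 := by simp only [hκ]; linarith
  have hk32 : 32 * BB b c * κ.2 ≤ κ.1 := by simp only [hκ]; linarith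
  have hkK : K * κ.2 ≤ κ.1 := by
    simp only [hκ]
    have h3 : (2 * K) * Y ≤ (2 * K) * (BB b c * Y) := by
      have : 0 ≤ 2 * K := by linarith
      gcongr
    have e3 : (2 * K + 1) * BB b c * Y = (2 * K) * (BB b c * Y) + BB b c * Y := by ring
    rw [e3] at hXYK
    linarith
  -- primitivity
  have hsqf : Squarefree (p * p') := by
    rw [Nat.squarefree_mul ((Nat.coprime_primes hp hp').2 hne)]
    exact ⟨hp.squarefree, hp'.squarefree⟩
  have hprim : IsCoprime κ.1 κ.2 := by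
    rw [Int.isCoprime_iff_gcd_eq_one]
    set g := Int.gcd κ.1 κ.2 with hg
    have g1 : (g : ℤ) ∣ κ.1 := Int.gcd_dvd_left _ _
    have g2 : (g : ℤ) ∣ κ.2 := Int.gcd_dvd_right _ _
    obtain ⟨s, hs⟩ := g1
    obtain ⟨t, ht⟩ := g2
    have hdv : ((g * g : ℕ) : ℤ) ∣ ((p * p' : ℕ) : ℤ) := by
      refine ⟨s ^ 2 + b * s * t + c * t ^ 2, ?_⟩
      push_cast
      rw [← hnκ]
      simp only [nrm]
      rw [hs, ht]; ring
    have hdv' : g * g ∣ p * p' := by exact_mod_cast hdv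
    exact Nat.isUnit_iff.1 (hsqf g hdv')
  have hpp : Prime (p : ℤ) := Nat.prime_iff_prime_int.1 hp
  have hpp' : Prime (p' : ℤ) := Nat.prime_iff_prime_int.1 hp'
  have hT : 2 * κ.1 + b * κ.2 = 2 * X := by simp only [hκ]; ring
  have hnodiv : ∀ q : ℕ, q.Prime → Odd q → (q : ℤ) ∣ p * p' → ¬ (q : ℤ) ∣ D → ¬ (q : ℤ) ∣ 2 * X := by
    intro q hq hqo hqn hqD hq2
    have hqq : Prime (q : ℤ) := Nat.prime_iff_prime_int.1 hq
    have hq2' : ¬ (q : ℤ) ∣ 2 := by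
      intro h
      have : q ∣ 2 := by exact_mod_cast h
      have := (Nat.prime_dvd_prime_iff_eq hq Nat.prime_two).1 this
      rw [this] at hqo
      exact absurd hqo (by decide)
    have hqX : (q : ℤ) ∣ X := by
      rcases hqq.dvd_or_dvd hq2 with h | h
      · exact absurd h hq2'
      · exact h
    have hqY : (q : ℤ) ∣ Y := by
      have h3 : (q : ℤ) ∣ D * Y ^ 2 := by
        have : D * Y ^ 2 = X ^ 2 - p * p' := by linarith
        rw [this]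
        exact dvd_sub (Dvd.dvd.pow hqX two_ne_zero) hqn
      rcases hqq.dvd_or_dvd h3 with h | h
      · exact absurd h hqD
      · exact hqq.dvd_of_dvd_pow h
    have k1 : (q : ℤ) ∣ κ.1 := by
      simp only [hκ]
      exact dvd_sub hqX (Dvd.dvd.mul_left hqY _)
    have k2 : (q : ℤ) ∣ κ.2 := by
      simp only [hκ]
      exact Dvd.dvd.mul_left hqY _
    exact hqq.not_isUnit (hprim.isUnit_of_dvd' k1 k2)
  have n1 := hnodiv p hp hodd (dvd_mul_right _ _) hpD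
  have n2 := hnodiv p' hp' hodd' (dvd_mul_left _ _) hpD'
  have hcopT : IsCoprime (nrm b c κ) (2 * κ.1 + b * κ.2) := by
    rw [hT, hnκ]
    exact IsCoprime.mul_left ((hpp.coprime_iff_not_dvd).2 n1) ((hpp'.coprime_iff_not_dvd).2 n2)
  refine ⟨κ, ⟨?_, sec_sq hk1 hk2 hk32, hprim, prim_sq hprim hcopT, hnκ, hp, hp', ?_⟩, hkK, ?_⟩
  · refine ⟨hk1, hk2, ?_⟩
    have : 0 ≤ BB b c * κ.2 := by positivity
    linarith
  · unfold h3
    rw [hnκ]
    have : ((p : ℤ) * (p' : ℤ)).natAbs = p * p' := by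
      rw [Int.natAbs_mul, Int.natAbs_natCast, Int.natAbs_natCast]
    rw [this, cnt_mul P hp.ne_zero hp'.ne_zero, cnt_prime hp hpP, cnt_prime hp' hpP']
    rfl
  · simp only [hκ]
    have hX0 : 0 ≤ X := by linarith
    have hz1 : 1 ≤ z ^ 2 := hz2
    calc X - b * Y ≤ 2 * X := by linarith
      _ = 2 * (1 * X) := by ring
      _ ≤ 2 * (z ^ 2 * X) := by gcongr

/-- analytic part: close directions give a small slope -/
lemma real_part (B d D z a a' e e' T K' : ℝ) (hK' : 1 ≤ K') (hd : 1 ≤ d) (hB : 1 ≤ B) (hD : |D| ≤ d) (hz : 1 ≤ z)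
    (ha : |a| ≤ 2 * d) (he : |e| ≤ 2 * d) (ha' : |a'| ≤ 2 * d) (he' : |e'| ≤ 2 * d)
    (hT : 20 * K' * B * d ^ 2 ≤ T)
    (h1 : a ^ 2 - D * e ^ 2 = z) (hda : |a' - a| ≤ 1 / T) (hde : |e' - e| ≤ 1 / T) :
    K' * B * |a' * e - a * e'| ≤ a * a' - D * e * e' ∧ a * a' - D * e * e' ≤ 8 * d ^ 3 := by
  have hd0 : 0 < d := by linarith
  have hT0 : 0 < T := by
    have : 0 < 20 * K' * B * d ^ 2 := by positivity
    linarith
  have hd2 : 1 ≤ d ^ 2 := one_le_pow₀ hd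
  have hdd : d ≤ d ^ 2 := by
    calc d = d ^ 1 := by ring
      _ ≤ d ^ 2 := pow_le_pow_right₀ hd (by norm_num)
  have hBd : 1 ≤ B * d ^ 2 := by
    calc (1 : ℝ) = 1 * 1 := by ring
      _ ≤ B * d ^ 2 := by gcongr
  have hs1 : K' * (B * (d ^ 2 * (1 / T))) ≤ 1 / 20 := by
    have : K' * (B * (d ^ 2 * (1 / T))) = K' * B * d ^ 2 / T := by ring
    rw [this, div_le_div_iff₀ hT0 (by norm_num)]
    linarith
  have hs2 : d ^ 2 * (1 / T) ≤ 1 / 20 := by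
    refine le_trans ?_ hs1
    calc d ^ 2 * (1 / T) = 1 * (1 * (d ^ 2 * (1 / T))) := by ring
      _ ≤ K' * (B * (d ^ 2 * (1 / T))) := by gcongr
  have k1 : |a * (a' - a)| ≤ 2 * (d ^ 2 * (1 / T)) := by
    rw [abs_mul]
    calc |a| * |a' - a| ≤ (2 * d) * (1 / T) := by gcongr
      _ = 2 * (d * (1 / T)) := by ring
      _ ≤ 2 * (d ^ 2 * (1 / T)) := by gcongr
  have k2 : |D * e * (e' - e)| ≤ 2 * (d ^ 2 * (1 / T)) := by
    rw [abs_mul, abs_mul]
    calc |D| * |e| * |e' - e| ≤ d * (2 * d) * (1 / T) := by gcongr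
      _ = 2 * (d ^ 2 * (1 / T)) := by ring
  have k3 : |a' * e - a * e'| ≤ 4 * (d ^ 2 * (1 / T)) := by
    have e1 : a' * e - a * e' = (a' - a) * e - a * (e' - e) := by ring
    rw [e1]
    calc |(a' - a) * e - a * (e' - e)| ≤ |(a' - a) * e| + |a * (e' - e)| := abs_sub _ _
      _ = |a' - a| * |e| + |a| * |e' - e| := by rw [abs_mul, abs_mul]
      _ ≤ (1 / T) * (2 * d) + (2 * d) * (1 / T) := by gcongr
      _ = 4 * (d * (1 / T)) := by ring
      _ ≤ 4 * (d ^ 2 * (1 / T)) := by gcongr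
  have k1' := abs_le.1 k1
  have k2' := abs_le.1 k2
  have e2 : a * a' - D * e * e' = z + a * (a' - a) - D * e * (e' - e) := by
    rw [← h1]; ring
  constructor
  · have k4 : K' * B * |a' * e - a * e'| ≤ 4 * (K' * (B * (d ^ 2 * (1 / T)))) := by
      calc K' * B * |a' * e - a * e'| ≤ K' * B * (4 * (d ^ 2 * (1 / T))) := by gcongr
        _ = 4 * (K' * (B * (d ^ 2 * (1 / T)))) := by ring
    rw [e2]
    linarith [k1'.1, k2'.2]
  · calc a * a' - D * e * e' ≤ |a * a' - D * e * e'| := le_abs_self _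
      _ ≤ |a * a'| + |D * e * e'| := abs_sub _ _
      _ = |a| * |a'| + |D| * |e| * |e'| := by rw [abs_mul, abs_mul, abs_mul]
      _ ≤ (2 * d) * (2 * d) + d * (2 * d) * (2 * d) := by gcongr
      _ = 4 * d ^ 2 + 4 * d ^ 3 := by ring
      _ ≤ 4 * d ^ 3 + 4 * d ^ 3 := by
        have : d ^ 2 ≤ d ^ 3 := pow_le_pow_right₀ hd (by norm_num)
        linarith
      _ = 8 * d ^ 3 := by ring

/-- existence of the multiplier, uniformly in `P` -/
theorem exists_mult {b c : ℤ} (hD : ¬ IsSquare (b ^ 2 - 4 * c)) (K : ℕ) (hK : 32 ≤ K) :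
    ∃ m0 : ℕ, 0 < m0 ∧ ∃ H : ℕ, ∃ C4 : ℝ, 1 ≤ C4 ∧ ∀ P : Set ℕ, ∀ ps : Finset ℕ, H < ps.card →
      (∀ p ∈ ps, p ∈ P ∧ p.Prime ∧ p ≡ 1 [MOD m0]) →
      ∃ p ∈ ps, ∃ p' ∈ ps, 5 ≤ p ∧ 5 ≤ p' ∧ ¬ (p : ℤ) ∣ b ^ 2 - 4 * c ∧
        ¬ (p' : ℤ) ∣ b ^ 2 - 4 * c ∧ ∃ κ : ℤ × ℤ, Mult P b c κ p p' ∧
        K * κ.2 ≤ κ.1 ∧ (κ.1 : ℝ) ≤ C4 * ((p : ℝ) * p') := by
  classical
  set D : ℤ := b ^ 2 - 4 * c with hDdef
  have hD0 : D ≠ 0 := by
    intro h
    exact hD ⟨0, by rw [h]; rfl⟩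
  have hdpos : 0 < D.natAbs := Int.natAbs_pos.2 hD0
  set d : ℕ := D.natAbs with hd
  have hdr : (1 : ℝ) ≤ d := by exact_mod_cast hdpos
  have hBr := BBr_one b c
  have hKr : (32 : ℝ) ≤ K := by exact_mod_cast hK
  have hKz : (32 : ℤ) ≤ K := by exact_mod_cast hK
  set T : ℕ := 20 * (2 * K + 1) * (BB b c).toNat * d ^ 2 with hT
  have hTr : (T : ℝ) = 20 * (2 * (K : ℝ) + 1) * (BB b c : ℝ) * d ^ 2 := by
    rw [hT]; push_cast
    have : (((BB b c).toNat : ℕ) : ℝ) = (BB b c : ℝ) := by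
      have h := Int.toNat_of_nonneg (BB_pos b c).le
      exact_mod_cast congrArg (fun t : ℤ => (t : ℝ)) h
    rw [this]
  have hT0 : (0 : ℝ) < T := by rw [hTr]; positivity
  set Bd : ℤ := 4 * (d : ℤ) ^ 2 + 2 * d * T with hBd
  set S : Finset (ℤ × ℤ × ℤ × ℤ × ℤ) := Finset.Icc (-Bd) Bd ×ˢ (Finset.Icc (-Bd) Bd ×ˢ
    (Finset.Icc (-Bd) Bd ×ˢ (Finset.Icc (-Bd) Bd ×ˢ Finset.Icc (-Bd) Bd))) with hS
  refine ⟨4 * d, by omega, S.card, 16 * (d : ℝ) ^ 3, ?_, ?_⟩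
  · have : (1 : ℝ) ≤ (d : ℝ) ^ 3 := one_le_pow₀ hdr
    linarith
  intro P ps hcard hps
  have hmod : ∀ p ∈ ps, p % (4 * D.natAbs) = 1 := by
    intro p hp
    have h1 : 1 % (4 * D.natAbs) = 1 := by
      apply Nat.mod_eq_of_lt
      omega
    rw [← h1]
    exact (hps p hp).2.2
  have hbig : ∀ p ∈ ps, 4 * d < p := by
    intro p hp
    have h1 := hmod p hp
    have h2 := (hps p hp).2.1.two_le
    by_contra hle
    push Not at hle
    rcases lt_or_eq_of_le hle with h | h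
    · rw [Nat.mod_eq_of_lt h] at h1; omega
    · rw [h, ← hd, Nat.mod_self] at h1; omega
  have h5 : ∀ p ∈ ps, 5 ≤ p := by intro p hp; have := hbig p hp; omega
  have hndiv : ∀ p ∈ ps, ¬ (p : ℤ) ∣ D := by
    intro p hp hdv
    have h1 : p ∣ D.natAbs := by
      have := Int.natAbs_dvd_natAbs.2 hdv
      simpa using this
    have := Nat.le_of_dvd hdpos h1
    have := hbig p hp
    omega
  have hodd : ∀ p ∈ ps, Odd p := by
    intro p hp
    rcases (hps p hp).2.1.eq_two_or_odd' with h | h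
    · have := h5 p hp; omega
    · exact h
  have hex : ∀ p ∈ ps, ∃ x y z : ℤ, z ≠ 0 ∧ x ^ 2 - D * y ^ 2 = p * z ^ 2 ∧
      x ^ 2 ≤ 4 * p * D.natAbs ^ 2 ∧ y ^ 2 ≤ 4 * p * D.natAbs ∧ |z| ≤ 2 * D.natAbs :=
    fun p hp => exists_small_norm_eq D hD p (hps p hp).2.1 (hmod p hp)
  choose! x y z hz heq hxb hyb hzb using hex
  set F : ℕ → ℤ × ℤ × ℤ × ℤ × ℤ := fun p => (z p, x p % (z p) ^ 2, y p % (z p) ^ 2,
    ⌊(T : ℝ) * ((x p : ℝ) / Real.sqrt p)⌋, ⌊(T : ℝ) * ((y p : ℝ) / Real.sqrt p)⌋) with hF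
  have hsq : ∀ p ∈ ps, 0 < Real.sqrt (p : ℝ) ∧ Real.sqrt (p : ℝ) ^ 2 = p := by
    intro p hp
    have : (0 : ℝ) < p := by exact_mod_cast (hps p hp).2.1.pos
    exact ⟨Real.sqrt_pos.2 this, Real.sq_sqrt this.le⟩
  have hxr : ∀ p ∈ ps, |(x p : ℝ) / Real.sqrt p| ≤ 2 * d := by
    intro p hp
    obtain ⟨h1, h2⟩ := hsq p hp
    apply abs_le_of_sq_le_sq _ (by positivity)
    rw [div_pow, h2, div_le_iff₀ (by rw [← h2]; positivity)]
    have h3 := hxb p hp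
    have h4 : ((x p : ℝ)) ^ 2 ≤ 4 * p * (d : ℝ) ^ 2 := by exact_mod_cast h3
    calc (x p : ℝ) ^ 2 ≤ 4 * p * (d : ℝ) ^ 2 := h4
      _ = (2 * (d : ℝ)) ^ 2 * p := by ring
  have hyr : ∀ p ∈ ps, |(y p : ℝ) / Real.sqrt p| ≤ 2 * d := by
    intro p hp
    obtain ⟨h1, h2⟩ := hsq p hp
    apply abs_le_of_sq_le_sq _ (by positivity)
    rw [div_pow, h2, div_le_iff₀ (by rw [← h2]; positivity)]
    have h3 := hyb p hp
    have h4 : ((y p : ℝ)) ^ 2 ≤ 4 * p * (d : ℝ) := by exact_mod_cast h3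
    have h5 : (d : ℝ) ≤ (d : ℝ) ^ 2 := by
      calc (d : ℝ) = (d : ℝ) ^ 1 := by ring
        _ ≤ (d : ℝ) ^ 2 := pow_le_pow_right₀ hdr (by norm_num)
    calc (y p : ℝ) ^ 2 ≤ 4 * p * (d : ℝ) := h4
      _ ≤ 4 * p * (d : ℝ) ^ 2 := by gcongr
      _ = (2 * (d : ℝ)) ^ 2 * p := by ring
  have hfl : ∀ t : ℝ, |t| ≤ 2 * d → -Bd ≤ ⌊(T : ℝ) * t⌋ ∧ ⌊(T : ℝ) * t⌋ ≤ Bd := by
    intro t ht
    obtain ⟨t1, t2⟩ := abs_le.1 ht
    have hBdr : (Bd : ℝ) = 4 * (d : ℝ) ^ 2 + 2 * d * T := by rw [hBd]; push_cast; ring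
    have hd4 : 0 ≤ 4 * (d : ℝ) ^ 2 := by positivity
    constructor
    · apply Int.le_floor.2
      push_cast
      rw [hBdr]
      have : (T : ℝ) * (-(2 * d)) ≤ T * t := by gcongr
      linarith
    · have h1 : (⌊(T : ℝ) * t⌋ : ℝ) ≤ T * t := Int.floor_le _
      have h2 : (T : ℝ) * t ≤ T * (2 * d) := by gcongr
      have : (⌊(T : ℝ) * t⌋ : ℝ) ≤ (Bd : ℝ) := by rw [hBdr]; linarith
      exact_mod_cast this
  have hmaps : Set.MapsTo F ps S := by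
    intro p hp
    have hp : p ∈ ps := hp
    have hz1 := hzb p hp
    rw [← hd] at hz1
    have hz0 : 0 < (z p) ^ 2 := by have := hz p hp; positivity
    have hz2 : (z p) ^ 2 ≤ 4 * (d : ℤ) ^ 2 := by
      rw [← sq_abs (z p)]
      calc |z p| ^ 2 ≤ (2 * (d : ℤ)) ^ 2 := by gcongr
        _ = 4 * (d : ℤ) ^ 2 := by ring
    have hTd : 0 ≤ 2 * (d : ℤ) * T := by positivity
    have hdd : 2 * (d : ℤ) ≤ 4 * (d : ℤ) ^ 2 := by
      have : (1 : ℤ) ≤ d := by exact_mod_cast hdpos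
      nlinarith
    obtain ⟨z1, z2⟩ := abs_le.1 hz1
    have x1 := Int.emod_nonneg (x p) hz0.ne'
    have x2 := Int.emod_lt_of_pos (x p) hz0
    have y1 := Int.emod_nonneg (y p) hz0.ne'
    have y2 := Int.emod_lt_of_pos (y p) hz0
    have f1 := hfl _ (hxr p hp)
    have f2 := hfl _ (hyr p hp)
    simp only [hS, hF, coe_product, Set.mem_prod, mem_coe, Finset.mem_Icc]
    refine ⟨⟨by linarith, by linarith⟩, ⟨by linarith, by linarith⟩, ⟨by linarith, by linarith⟩,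
      f1, f2⟩
  obtain ⟨p, hp, p', hp', hne, hFF⟩ := Finset.exists_ne_map_eq_of_card_lt_of_maps_to hcard hmaps
  have hp : p ∈ ps := hp
  have hp' : p' ∈ ps := hp'
  simp only [hF, Prod.mk.injEq] at hFF
  obtain ⟨e1, e2, e3, e4, e5⟩ := hFF
  rw [← e1] at e2 e3
  have hxd : (z p) ^ 2 ∣ x p' - x p := (show x p ≡ x p' [ZMOD (z p) ^ 2] from e2).dvd
  have hyd : (z p) ^ 2 ∣ y p' - y p := (show y p ≡ y p' [ZMOD (z p) ^ 2] from e3).dvd
  have hq := heq p hp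
  have hq' := heq p' hp'
  rw [← e1] at hq'
  -- analytic estimates
  obtain ⟨r1, r2⟩ := hsq p hp
  obtain ⟨r1', r2'⟩ := hsq p' hp'
  set r : ℝ := Real.sqrt (p : ℝ) with hr
  set r' : ℝ := Real.sqrt (p' : ℝ) with hr'
  have hclose : ∀ s t : ℝ, ⌊(T : ℝ) * s⌋ = ⌊(T : ℝ) * t⌋ → |t - s| ≤ 1 / T := by
    intro s t h
    have h1 := Int.abs_sub_lt_one_of_floor_eq_floor h
    have e : (T : ℝ) * s - T * t = -(T * (t - s)) := by ring
    rw [e, abs_neg, abs_mul, abs_of_pos hT0] at h1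
    rw [le_div_iff₀ hT0]
    linarith
  have ca := hclose _ _ e4
  have ce := hclose _ _ e5
  have hDd : |(D : ℝ)| ≤ d := by
    have : |D| = (d : ℤ) := by rw [hd]; simp
    have h2 : ((|D| : ℤ) : ℝ) = ((d : ℤ) : ℝ) := by rw [this]
    push_cast at h2
    rw [h2]
  have hzz : (1 : ℝ) ≤ ((z p : ℝ)) ^ 2 := by
    have h0 : 0 < (z p) ^ 2 := by have := hz p hp; positivity
    exact_mod_cast h0
  have hqr : ((x p : ℝ) / r) ^ 2 - D * ((y p : ℝ) / r) ^ 2 = ((z p : ℝ)) ^ 2 := by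
    have h1 : (x p : ℝ) ^ 2 - D * (y p : ℝ) ^ 2 = p * (z p : ℝ) ^ 2 := by exact_mod_cast hq
    rw [← r2] at h1
    rw [div_pow, div_pow]
    field_simp
    linarith
  have hreal := real_part (BB b c : ℝ) d D ((z p : ℝ) ^ 2) (x p / r) (x p' / r') (y p / r)
    (y p' / r') T (2 * (K : ℝ) + 1) (by linarith) hdr hBr hDd hzz (hxr p hp) (hyr p hp) (hxr p' hp') (hyr p' hp')
    (by rw [hTr]) hqr ca ce
  obtain ⟨re1, re2⟩ := hreal
  have hrr : 0 < r * r' := by positivity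
  have i1 : ((x p' * y p - x p * y p' : ℤ) : ℝ) = (r * r') *
      ((x p' : ℝ) / r' * (y p / r) - x p / r * (y p' / r')) := by
    push_cast; field_simp
  have i2 : ((x p * x p' - D * y p * y p' : ℤ) : ℝ) = (r * r') *
      ((x p : ℝ) / r * (x p' / r') - D * (y p / r) * (y p' / r')) := by
    push_cast; field_simp
  have hsm : (2 * (K : ℤ) + 1) * BB b c * |x p' * y p - x p * y p'| ≤
      x p * x p' - D * y p * y p' := by
    have : (((2 * (K : ℤ) + 1) * BB b c * |x p' * y p - x p * y p'| : ℤ) : ℝ) ≤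
        ((x p * x p' - D * y p * y p' : ℤ) : ℝ) := by
      rw [i2]
      have e : (((2 * (K : ℤ) + 1) * BB b c * |x p' * y p - x p * y p'| : ℤ) : ℝ) =
          (r * r') * ((2 * (K : ℝ) + 1) * (BB b c : ℝ) *
            |(x p' : ℝ) / r' * (y p / r) - x p / r * (y p' / r')|) := by
        rw [Int.cast_mul, Int.cast_abs, i1, abs_mul, abs_of_pos hrr]
        push_cast
        ring
      rw [e]
      gcongr
    exact_mod_cast this
  have hsize : ((x p * x p' - D * y p * y p' : ℤ) : ℝ) ≤ 8 * (d : ℝ) ^ 3 * ((p : ℝ) * p') := by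
    rw [i2]
    have h1 : r * r' ≤ (p : ℝ) * p' := by
      have hrp : r ≤ p := by
        have : (1 : ℝ) ≤ p := by exact_mod_cast (hps p hp).2.1.one_le
        rw [hr]
        calc Real.sqrt (p : ℝ) ≤ Real.sqrt ((p : ℝ) ^ 2) := by
              apply Real.sqrt_le_sqrt
              nlinarith
          _ = p := Real.sqrt_sq (by linarith)
      have hrp' : r' ≤ p' := by
        have : (1 : ℝ) ≤ p' := by exact_mod_cast (hps p' hp').2.1.one_le
        rw [hr']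
        calc Real.sqrt (p' : ℝ) ≤ Real.sqrt ((p' : ℝ) ^ 2) := by
              apply Real.sqrt_le_sqrt
              nlinarith
          _ = p' := Real.sqrt_sq (by linarith)
      gcongr
    calc (r * r') * ((x p : ℝ) / r * (x p' / r') - D * (y p / r) * (y p' / r'))
        ≤ (r * r') * (8 * (d : ℝ) ^ 3) := by gcongr
      _ ≤ ((p : ℝ) * p') * (8 * (d : ℝ) ^ 3) := by gcongr
      _ = 8 * (d : ℝ) ^ 3 * ((p : ℝ) * p') := by ring
  -- the second coordinate is not zero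
  have hppne : ¬ IsSquare ((p : ℤ) * p') := by
    rintro ⟨k, hk⟩
    have hpp : Prime (p : ℤ) := Nat.prime_iff_prime_int.1 (hps p hp).2.1
    have h1 : (p : ℤ) ∣ k := by
      have : (p : ℤ) ∣ k * k := ⟨p', hk.symm⟩
      rcases hpp.dvd_or_dvd this with h | h <;> exact h
    obtain ⟨l, rfl⟩ := h1
    have h2 : (p' : ℤ) = p * (l * l) := by
      have hp0 : (p : ℤ) ≠ 0 := hpp.ne_zero
      apply mul_left_cancel₀ hp0
      rw [hk]; ring
    have h3 : (p : ℤ) ∣ p' := ⟨l * l, h2⟩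
    have h4 : p ∣ p' := by exact_mod_cast h3
    exact hne ((Nat.prime_dvd_prime_iff_eq (hps p hp).2.1 (hps p' hp').2.1).1 h4)
  have hY0 : x p' * y p - x p * y p' ≠ 0 := by
    intro h0
    apply hppne
    have h1 : (x p * x p' - D * y p * y p') ^ 2 = ((p : ℤ) * p') * ((z p) ^ 2) ^ 2 := by
      have : (x p * x p' - D * y p * y p') ^ 2 - D * (x p' * y p - x p * y p') ^ 2 =
          (x p ^ 2 - D * y p ^ 2) * (x p' ^ 2 - D * y p' ^ 2) := by ring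
      rw [h0, hq, hq'] at this
      linarith [show D * (0 : ℤ) ^ 2 = 0 by ring,
        show (p : ℤ) * z p ^ 2 * (p' * z p ^ 2) = ((p : ℤ) * p') * ((z p) ^ 2) ^ 2 by ring]
    exact isSquare_of_sq_eq_mul_sq' _ _ _ (pow_ne_zero 2 (hz p hp)) h1
  have hC4 : ∀ κ1 : ℤ, κ1 ≤ 2 * (x p * x p' - D * y p * y p') →
      (κ1 : ℝ) ≤ 16 * (d : ℝ) ^ 3 * ((p : ℝ) * p') := by
    intro κ1 h
    have : (κ1 : ℝ) ≤ 2 * ((x p * x p' - D * y p * y p' : ℤ) : ℝ) := by exact_mod_cast h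
    linarith
  rcases lt_or_gt_of_ne hY0 with h | h
  · -- swap
    have habs : |x p' * y p - x p * y p'| = x p * y p' - x p' * y p := by
      rw [abs_of_neg h]; ring
    rw [habs] at hsm
    obtain ⟨κ, hκ, hκK, hκ1⟩ := mult_aux (P := P) (b := b) (c := c) (hps p' hp').2.1 (hps p hp).2.1
      (fun h => hne h.symm) (hps p' hp').1 (hps p hp).1 (hodd p' hp') (hodd p hp)
      (x p') (y p') (x p) (y p) (z p) (hz p hp) (hndiv p' hp') (hndiv p hp) hq' hq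
      (by rw [← neg_sub]; exact (dvd_neg).2 hxd) (by rw [← neg_sub]; exact (dvd_neg).2 hyd)
      (by linarith) K hKz (by
        have e : x p' * x p - D * y p' * y p = x p * x p' - D * y p * y p' := by ring
        rw [← hDdef, e]; exact hsm)
    refine ⟨p', hp', p, hp, h5 p' hp', h5 p hp, hndiv p' hp', hndiv p hp, κ, hκ, hκK, ?_⟩
    rw [mul_comm (p' : ℝ)]
    apply hC4
    have e : x p' * x p - D * y p' * y p = x p * x p' - D * y p * y p' := by ring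
    rw [← hDdef, e] at hκ1
    exact hκ1
  · rw [abs_of_pos h] at hsm
    obtain ⟨κ, hκ, hκK, hκ1⟩ := mult_aux (P := P) (b := b) (c := c) (hps p hp).2.1 (hps p' hp').2.1
      hne (hps p hp).1 (hps p' hp').1 (hodd p hp) (hodd p' hp')
      (x p) (y p) (x p') (y p') (z p) (hz p hp) (hndiv p hp) (hndiv p' hp') hq hq' hxd hyd h K hKz hsm
    exact ⟨p, hp, p', hp', h5 p hp, h5 p' hp', hndiv p hp, hndiv p' hp', κ, hκ, hκK, hC4 _ hκ1⟩

end Pool.Agent.Lib.MP_a17b09_nt
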