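import Pool.Agent.Lib.MP_a17b09_nt.Divisor
import Pool.Agent.Lib.MP_a17b09_nt.Misc
import Pool.Agent.Lib.MP_a17b09_nt.M3.Kappa

set_option autoImplicit false

open Finset Filter

namespace Pool.Agent.Lib.MP_a17b09_nt

open Classical in
/-- the set of `1 ≤ t ≤ N` with `f(t) > 0` of class `r` -/
noncomputable def goodset3 (P : Set ℕ) (b c : ℤ) (r : ZMod 3) (N : ℕ) : Finset ℕ :=
  (Finset.Icc 1 N).filter (fun t : ℕ => 0 < ff b c t ∧
    ((cnt P (ff b c t).natAbs : ℕ) : ZMod 3) = r)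

lemma bad3_count {P : Set ℕ} {b c : ℤ} {L : ℕ} (hL : 0 < L)
    {Xm : ℤ} {W : ℕ} {r : ZMod 3} (bad : Finset ℕ)
    (hbad : ∀ j ∈ bad, W ≤ j ∧ (j : ℝ) + W ≤ L * a0 b c ∧ ¬ GoodE P b c L Xm W r j)
    (S : Finset ℕ)
    (hS : ∀ t : ℕ, 0 < t → (t : ℤ) ≤ 2 * Xm ^ 2 → 0 < ff b c t →
      ((cnt P (ff b c t).natAbs : ℕ) : ZMod 3) = r → t ∈ S)
    (Dm : ℕ) (hDm : ∀ t ∈ S, (ff b c t).natAbs.divisors.card ≤ Dm) :
    bad.card ≤ S.card * ((2 * W + 1) * Dm) := by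
  classical
  have hLr : (0 : ℝ) < L := by exact_mod_cast hL
  have hex : ∀ j ∈ bad, ∃ u v : ℤ × ℤ, det u v = 1 ∧ 0 < u.1 ∧ 0 < v.1 ∧ u.1 ≤ Xm ∧ v.1 ≤ Xm ∧
      (j : ℝ) - W ≤ L * ang b c u ∧ L * ang b c v ≤ j + W ∧
      h3 P b c u + h3 P b c v = r := by
    intro j hj
    have h := (hbad j hj).2.2
    unfold GoodE at h
    push Not at h
    exact h
  choose! u v hdet hu1 hv1 huX hvX hlo hhi hcol using hex
  have hmono : ∀ j ∈ bad, L * ang b c (u j) ≤ L * ang b c (v j) := by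
    intro j hj
    have := ang_mono (b := b) (c := c) (slope_le_of_det (hu1 j hj) (hv1 j hj)
      (by rw [hdet j hj]; norm_num))
    gcongr
  have hsec : ∀ j ∈ bad, ∀ w : ℤ × ℤ, 0 < w.1 → (j : ℝ) - W ≤ L * ang b c w →
      L * ang b c w ≤ j + W → Sec b c w := by
    intro j hj w hw h1 h2
    obtain ⟨k1, k2, -⟩ := hbad j hj
    have k1r : (W : ℝ) ≤ j := by exact_mod_cast k1
    apply sec_of_ang hw
    · have : 0 ≤ (L : ℝ) * ang b c w := by linarith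
      exact nonneg_of_mul_nonneg_right this hLr
    · have : (L : ℝ) * ang b c w ≤ L * a0 b c := by linarith
      exact le_of_mul_le_mul_left this hLr
  have hsu : ∀ j ∈ bad, Sec b c (u j) := fun j hj =>
    hsec j hj _ (hu1 j hj) (hlo j hj) ((hmono j hj).trans (hhi j hj))
  have hsv : ∀ j ∈ bad, Sec b c (v j) := fun j hj =>
    hsec j hj _ (hv1 j hj) ((hlo j hj).trans (hmono j hj)) (hhi j hj)
  set T : Finset (Σ _ : ℕ, ℕ × ℕ) :=
    S.sigma (fun t => (ff b c t).natAbs.divisors ×ˢ range (2 * W + 1)) with hT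
  have hTcard : T.card ≤ S.card * ((2 * W + 1) * Dm) := by
    rw [hT, card_sigma]
    calc ∑ t ∈ S, ((ff b c t).natAbs.divisors ×ˢ range (2 * W + 1)).card ≤
        ∑ _t ∈ S, (2 * W + 1) * Dm := by
          apply sum_le_sum
          intro t ht
          rw [card_product, card_range, mul_comm]
          exact Nat.mul_le_mul_left _ (hDm t ht)
      _ = S.card * ((2 * W + 1) * Dm) := by rw [sum_const, smul_eq_mul]
  refine le_trans ?_ hTcard
  have hlabpos : ∀ j ∈ bad, 0 < lab b c (u j) (v j) := fun j hj => lab_pos (hsu j hj) (hsv j hj)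
  have hff : ∀ j ∈ bad, ff b c (lab b c (u j) (v j)) = nrm b c (u j) * nrm b c (v j) := by
    intro j hj
    rw [nrm_mul_nrm, hdet j hj]
    unfold ff
    ring
  apply card_le_card_of_injOn (fun j => (⟨(lab b c (u j) (v j)).toNat,
    ((nrm b c (u j)).natAbs, j % (2 * W + 1))⟩ : Σ _ : ℕ, ℕ × ℕ))
  · intro j hj
    have hj : j ∈ bad := hj
    have hl := hlabpos j hj
    have hcast : (((lab b c (u j) (v j)).toNat : ℕ) : ℤ) = lab b c (u j) (v j) :=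
      Int.toNat_of_nonneg hl.le
    have hnu := nrm_pos (hsu j hj)
    have hnv := nrm_pos (hsv j hj)
    simp only [hT, coe_sigma, Set.mem_sigma_iff, mem_coe, mem_product, mem_range]
    refine ⟨?_, ?_, ?_⟩
    · apply hS
      · omega
      · rw [hcast]
        have h1 := (lab_bounds (hsu j hj) (hsv j hj)).2
        have hu1 := hu1 j hj
        have hv1 := hv1 j hj
        have hu2 := huX j hj
        have hv2 := hvX j hj
        have h2 : (u j).1 * (v j).1 ≤ Xm * Xm := by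
          have : 0 ≤ Xm := by linarith
          gcongr
        have h3 : 0 < (u j).1 * (v j).1 := mul_pos hu1 hv1
        rw [sq]
        linarith
      · rw [hcast, hff j hj]; positivity
      · rw [hcast, hff j hj]
        have h := hcol j hj
        unfold h3 at h
        rw [Int.natAbs_mul, cnt_mul P (Int.natAbs_ne_zero.2 hnu.ne')
          (Int.natAbs_ne_zero.2 hnv.ne'), Nat.cast_add]
        exact h
    · rw [hcast, hff j hj, Nat.mem_divisors]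
      constructor
      · rw [Int.natAbs_mul]; exact dvd_mul_right _ _
      · rw [Int.natAbs_ne_zero]; positivity
    · exact Nat.mod_lt _ (by omega)
  · intro j hj j' hj' heq
    have hj : j ∈ bad := hj
    have hj' : j' ∈ bad := hj'
    simp only [Sigma.mk.injEq, heq_eq_eq, Prod.mk.injEq] at heq
    obtain ⟨h1, h2, h3'⟩ := heq
    have hl := hlabpos j hj
    have hl' := hlabpos j' hj'
    have hleq : lab b c (u j) (v j) = lab b c (u j') (v j') := by omega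
    have hnu := nrm_pos (hsu j hj)
    have hnu' := nrm_pos (hsu j' hj')
    have hneq : nrm b c (u j) = nrm b c (u j') := by omega
    obtain ⟨hu, -⟩ := fiber_lemma (hsu j hj) (hsu j' hj') (hdet j hj) (hdet j' hj') hleq hneq
    have w1 := hlo j hj
    have w2 := (hmono j hj).trans (hhi j hj)
    have w1' := hlo j' hj'
    have w2' := (hmono j' hj').trans (hhi j' hj')
    rw [← hu] at w1' w2'
    have k1 : (j : ℝ) ≤ j' + 2 * W := by linarith
    have k2 : (j' : ℝ) ≤ j + 2 * W := by linarith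
    have k1' : j ≤ j' + 2 * W := by exact_mod_cast k1
    have k2' : j' ≤ j + 2 * W := by exact_mod_cast k2
    -- same residue and close
    rcases le_total j j' with h | h
    · have hd : (2 * W + 1) ∣ j' - j := (Nat.modEq_iff_dvd' h).1 h3'
      have : j' - j = 0 := Nat.eq_zero_of_dvd_of_lt hd (by omega)
      omega
    · have hd : (2 * W + 1) ∣ j - j' := (Nat.modEq_iff_dvd' h).1 h3'.symm
      have : j - j' = 0 := Nat.eq_zero_of_dvd_of_lt hd (by omega)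
      omega

lemma real_final (L θ a W X1 X3 BCc BGc BRc M s Dm : ℝ) (hLr : 1 ≤ L) (hθ : 0 < θ)
    (ha : 0 < a) (hX1a : L ^ (1 / 2 - θ) ≤ X1) (hX1b : X1 ≤ 2 * L ^ (1 / 2 - θ))
    (hX3a : L ^ (1 / 2 + θ) ≤ X3) (hWa : L ^ (3 * θ) ≤ W) (hWb : W ≤ 2 * L ^ (3 * θ))
    (e1 : 110240 * 16 / a * L ^ (1 - θ) ≤ L) (hLa' : 64 ≤ L * a)
    (hM2 : L * a / 4 < M + 1) (hM5r : M ≤ 5 * (BCc + BGc + BRc))
    (hcC : BCc ≤ 8 * X1 ^ 2 + (3584 * L ^ 2 / (W * X1 ^ 2) + 14 * (32 * L / (W * X1)) ^ 2))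
    (hcR : BRc ≤ 4096 * L ^ 2 / X3 ^ 2) (hcGr : BGc ≤ s * ((2 * W + 1) * Dm)) (hs0 : 0 ≤ s)
    (hDm0 : 0 ≤ Dm) : a / 400 * L ^ (1 - 3 * θ) ≤ Dm * s := by
  have hLpos : 0 < L := by linarith
  have hL1 : 0 < L ^ (1 / 2 - θ) := by positivity
  have hL3 : 0 < L ^ (1 / 2 + θ) := by positivity
  have hLW : 0 < L ^ (3 * θ) := by positivity
  have hX1pos : 0 < X1 := by linarith
  have hX3pos : 0 < X3 := by linarith
  have hW0 : 0 < W := by linarith
  -- powers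
  have pw : ∀ x y : ℝ, L ^ x * L ^ y = L ^ (x + y) := fun x y =>
    (Real.rpow_add hLpos x y).symm
  have hLsq : L ^ 2 = L ^ (2 : ℝ) := by rw [Real.rpow_two]
  have hX1sq1 : L ^ (1 - 2 * θ) ≤ X1 ^ 2 := by
    calc L ^ (1 - 2 * θ) = (L ^ (1 / 2 - θ)) ^ 2 := by
          rw [← Real.rpow_natCast, ← Real.rpow_mul hLpos.le]; congr 1; push_cast; ring
      _ ≤ X1 ^ 2 := by gcongr
  have hX1sq2 : X1 ^ 2 ≤ 4 * L ^ (1 - 2 * θ) := by
    calc X1 ^ 2 ≤ (2 * L ^ (1 / 2 - θ)) ^ 2 := by gcongr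
      _ = 4 * (L ^ (1 / 2 - θ)) ^ 2 := by ring
      _ = 4 * L ^ (1 - 2 * θ) := by
        congr 1
        rw [← Real.rpow_natCast, ← Real.rpow_mul hLpos.le]; congr 1; push_cast; ring
  have hX3sq : L ^ (1 + 2 * θ) ≤ X3 ^ 2 := by
    calc L ^ (1 + 2 * θ) = (L ^ (1 / 2 + θ)) ^ 2 := by
          rw [← Real.rpow_natCast, ← Real.rpow_mul hLpos.le]; congr 1; push_cast; ring
      _ ≤ X3 ^ 2 := by gcongr
  have t1 : 8 * X1 ^ 2 ≤ 32 * L ^ (1 - θ) := by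
    have : L ^ (1 - 2 * θ) ≤ L ^ (1 - θ) :=
      Real.rpow_le_rpow_of_exponent_le hLr (by linarith)
    linarith
  have t2 : 3584 * L ^ 2 / (W * X1 ^ 2) ≤ 3584 * L ^ (1 - θ) := by
    have h1 : L ^ (1 + θ) ≤ W * X1 ^ 2 := by
      calc L ^ (1 + θ) = L ^ (3 * θ) * L ^ (1 - 2 * θ) := by
            rw [pw]; congr 1; ring
        _ ≤ W * X1 ^ 2 := by gcongr
    calc 3584 * L ^ 2 / (W * X1 ^ 2) ≤ 3584 * L ^ 2 / L ^ (1 + θ) := by
          gcongr
      _ = 3584 * (L ^ (2 : ℝ) / L ^ (1 + θ)) := by rw [hLsq]; ring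
      _ = 3584 * L ^ (1 - θ) := by
          rw [← Real.rpow_sub hLpos]; congr 2; ring
  have t3 : 14 * (32 * L / (W * X1)) ^ 2 ≤ 14336 * L ^ (1 - θ) := by
    have h1 : L ^ (1 + 4 * θ) ≤ (W * X1) ^ 2 := by
      calc L ^ (1 + 4 * θ) = (L ^ (3 * θ)) ^ 2 * L ^ (1 - 2 * θ) := by
            rw [← Real.rpow_natCast, ← Real.rpow_mul hLpos.le, pw]; congr 1; push_cast; ring
        _ ≤ W ^ 2 * X1 ^ 2 := by gcongr
        _ = (W * X1) ^ 2 := by ring
    have h2 : 14 * (32 * L / (W * X1)) ^ 2 = 14336 * L ^ 2 / (W * X1) ^ 2 := by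
      rw [div_pow]; ring
    rw [h2]
    calc 14336 * L ^ 2 / (W * X1) ^ 2 ≤ 14336 * L ^ 2 / L ^ (1 + 4 * θ) := by
          gcongr
      _ = 14336 * (L ^ (2 : ℝ) / L ^ (1 + 4 * θ)) := by rw [hLsq]; ring
      _ = 14336 * L ^ (1 - 4 * θ) := by
          rw [← Real.rpow_sub hLpos]; congr 2; ring
      _ ≤ 14336 * L ^ (1 - θ) := by
          have : L ^ (1 - 4 * θ) ≤ L ^ (1 - θ) :=
            Real.rpow_le_rpow_of_exponent_le hLr (by linarith)
          gcongr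
  have t4 : 4096 * L ^ 2 / X3 ^ 2 ≤ 4096 * L ^ (1 - θ) := by
    calc 4096 * L ^ 2 / X3 ^ 2 ≤ 4096 * L ^ 2 / L ^ (1 + 2 * θ) := by
          gcongr
      _ = 4096 * (L ^ (2 : ℝ) / L ^ (1 + 2 * θ)) := by rw [hLsq]; ring
      _ = 4096 * L ^ (1 - 2 * θ) := by
          rw [← Real.rpow_sub hLpos]; congr 2; ring
      _ ≤ 4096 * L ^ (1 - θ) := by
          have : L ^ (1 - 2 * θ) ≤ L ^ (1 - θ) :=
            Real.rpow_le_rpow_of_exponent_le hLr (by linarith)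
          gcongr
  have t5 : 110240 * L ^ (1 - θ) ≤ L * a / 16 := by
    have h1 : 110240 * 16 / a * L ^ (1 - θ) =
        (110240 * L ^ (1 - θ)) * (16 / a) := by ring
    rw [h1, ← le_div_iff₀ (by positivity)] at e1
    refine e1.trans (le_of_eq ?_)
    field_simp
  have t6 : (2 * W + 1) ≤ 5 * L ^ (3 * θ) := by
    have : 1 ≤ L ^ (3 * θ) := Real.one_le_rpow hLr (by linarith)
    linarith
  have t7 : BGc ≤ 5 * L ^ (3 * θ) * (Dm * s) := by
    calc BGc ≤ s * ((2 * W + 1) * Dm) := hcGr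
      _ = (2 * W + 1) * (Dm * s) := by ring
      _ ≤ 5 * L ^ (3 * θ) * (Dm * s) := by gcongr
  have t8 : L * a / 16 ≤ 25 * L ^ (3 * θ) * (Dm * s) := by
    have : BCc + BRc ≤ 22048 * L ^ (1 - θ) := by
      have h0 : 0 ≤ L ^ (1 - θ) := by positivity
      linarith
    linarith
  have t9 : L = L ^ (3 * θ) * L ^ (1 - 3 * θ) := by
    rw [pw]
    conv_lhs => rw [← Real.rpow_one L]
    congr 1; ring
  have t10 : L ^ (3 * θ) * (a / 400 * L ^ (1 - 3 * θ)) ≤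
      L ^ (3 * θ) * (Dm * s) := by
    have h1 : L ^ (3 * θ) * (a / 400 * L ^ (1 - 3 * θ)) =
        L * a / 16 / 25 := by
      have : L ^ (3 * θ) * (a / 400 * L ^ (1 - 3 * θ)) =
          a / 400 * (L ^ (3 * θ) * L ^ (1 - 3 * θ)) := by ring
      rw [this, ← t9]; ring
    rw [h1]
    linarith
  exact le_of_mul_le_mul_left t10 hLW


lemma core3 {b c : ℤ} (hD : ¬ IsSquare (b ^ 2 - 4 * c)) (θ : ℝ)
    (hθ : 0 < θ) (hθ1 : θ ≤ 1 / 10) :
    ∃ K : ℕ, 32 ≤ K ∧ ∃ B' : ℝ, 0 < B' ∧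
      ∀ᶠ L : ℕ in atTop, ∀ P : Set ℕ, ∀ p p' : ℕ, ∀ κ : ℤ × ℤ, 5 ≤ p → 5 ≤ p' →
      ¬ (p : ℤ) ∣ b ^ 2 - 4 * c → ¬ (p' : ℤ) ∣ b ^ 2 - 4 * c → Mult P b c κ p p' →
      K * κ.2 ≤ κ.1 → ∀ r : ZMod 3, ∀ N Dm : ℕ,
      80000 * (κ.1 : ℝ) ^ 4 * (L : ℝ) ^ (1 + 2 * θ) ≤ N →
      (∀ t ∈ Finset.Icc 1 N, 0 < ff b c t → (ff b c t).natAbs.divisors.card ≤ Dm) →
      B' * (L : ℝ) ^ (1 - 3 * θ) ≤ Dm * ((goodset3 P b c r N).card : ℝ) := by
  classical
  have ha0 := a0_pos b c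
  refine ⟨max 32 ⌈128 / a0 b c⌉₊, le_max_left _ _, a0 b c / 400, by positivity, ?_⟩
  set K : ℕ := max 32 ⌈128 / a0 b c⌉₊ with hK
  have hKa : 128 ≤ K * a0 b c := by
    have h1 : 128 / a0 b c ≤ K := by
      calc 128 / a0 b c ≤ (⌈128 / a0 b c⌉₊ : ℕ) := Nat.le_ceil _
        _ ≤ K := by exact_mod_cast le_max_right _ _
    rwa [div_le_iff₀ ha0] at h1
  have hK0 : (0 : ℝ) < K := by
    have : 32 ≤ K := le_max_left _ _
    exact_mod_cast (by omega : 0 < K)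
  have hev1 := ev_rpow (1 - θ) 1 (110240 * 16 / a0 b c) (by linarith)
  have hev2 := ev_rpow (3 * θ) 1 (2 * 32 / a0 b c) (by linarith)
  have hevX := ev_rpow 0 (1 / 2 - θ) (8 * (BB b c : ℝ)) (by linarith)
  have hevW := ev_rpow 0 (3 * θ) 4 (by linarith)
  filter_upwards [hev1, hev2, hevX, hevW, eventually_gt_atTop 0,
    eventually_ge_atTop ⌈64 / a0 b c⌉₊] with L e1 e2 eX eW hL hLa P p p' κ hp5 hp5' hpD hpD' hκ
      hKκ r N Dm hN hDm
  have hLr : (1 : ℝ) ≤ L := by exact_mod_cast hL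
  have hLpos : (0 : ℝ) < L := by linarith
  rw [Real.rpow_one] at e1 e2
  rw [Real.rpow_zero, mul_one] at eX eW
  have hLa' : 64 ≤ L * a0 b c := by
    have : 64 / a0 b c ≤ L := (Nat.le_ceil _).trans (by exact_mod_cast hLa)
    rwa [div_le_iff₀ ha0] at this
  -- parameters
  have ceil_bound : ∀ t : ℝ, 1 ≤ t → t ≤ ⌈t⌉₊ ∧ (⌈t⌉₊ : ℝ) ≤ 2 * t := by
    intro t ht
    refine ⟨Nat.le_ceil _, ?_⟩
    have := Nat.ceil_lt_add_one (a := t) (by linarith)
    linarith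
  set X1 : ℕ := ⌈(L : ℝ) ^ (1 / 2 - θ)⌉₊ with hX1
  set X3 : ℕ := ⌈(L : ℝ) ^ (1 / 2 + θ)⌉₊ with hX3
  set W : ℕ := ⌈(L : ℝ) ^ (3 * θ)⌉₊ with hW
  obtain ⟨hX1a, hX1b⟩ := ceil_bound _ (Real.one_le_rpow hLr (by linarith : 0 ≤ 1 / 2 - θ))
  obtain ⟨hX3a, hX3b⟩ := ceil_bound _ (Real.one_le_rpow hLr (by linarith : 0 ≤ 1 / 2 + θ))
  obtain ⟨hWa, hWb⟩ := ceil_bound _ (Real.one_le_rpow hLr (by linarith : 0 ≤ 3 * θ))
  rw [← hX1] at hX1a hX1b
  rw [← hX3] at hX3a hX3b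
  rw [← hW] at hWa hWb
  have hL1 : 0 < (L : ℝ) ^ (1 / 2 - θ) := by positivity
  have hL3 : 0 < (L : ℝ) ^ (1 / 2 + θ) := by positivity
  have hLW : 0 < (L : ℝ) ^ (3 * θ) := by positivity
  have hX1pos : 0 < X1 := by
    have : (0 : ℝ) < X1 := by linarith
    exact_mod_cast this
  have hX3pos : 0 < X3 := by
    have : (0 : ℝ) < X3 := by linarith
    exact_mod_cast this
  have hW4 : 4 ≤ W := by
    have : (4 : ℝ) ≤ W := by linarith
    exact_mod_cast this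
  have hX1BB : 8 * BB b c ≤ X1 := by
    have : (8 : ℝ) * (BB b c : ℝ) ≤ X1 := by linarith
    exact_mod_cast this
  set X2 : ℤ := 25 * (X3 : ℤ) with hX2
  set Xm : ℤ := 4 * X2 * κ.1 ^ 2 with hXm
  have hκ1 : 1 ≤ κ.1 := hκ.sec.1
  have hκ11 : κ.1 ≤ κ.1 ^ 2 := by
    calc κ.1 = κ.1 ^ 1 := by ring
      _ ≤ κ.1 ^ 2 := pow_le_pow_right₀ hκ1 (by norm_num)
  have hκ12 : 1 ≤ κ.1 ^ 2 := by linarith
  have hX3z : (1 : ℤ) ≤ X3 := by exact_mod_cast hX3pos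
  have hX2pos : 0 < X2 := by rw [hX2]; linarith
  have hX13 : X1 ≤ X3 := by
    rw [hX1, hX3]
    apply Nat.ceil_le_ceil
    exact Real.rpow_le_rpow_of_exponent_le hLr (by linarith)
  have hX13z : (X1 : ℤ) ≤ X3 := by exact_mod_cast hX13
  have hXm4 : X2 ≤ Xm := by
    rw [hXm]
    calc X2 = 1 * X2 * 1 := by ring
      _ ≤ 4 * X2 * κ.1 ^ 2 := by gcongr; norm_num
  have h1m : (X1 : ℤ) ≤ Xm := by
    refine le_trans ?_ hXm4
    rw [hX2]; linarith
  have hXa : 2 * (X2 * κ.1) ≤ Xm := by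
    rw [hXm]
    have h0 : 0 ≤ X2 * κ.1 ^ 2 := by positivity
    have h1 : X2 * κ.1 ≤ X2 * κ.1 ^ 2 := by gcongr
    linarith [show 4 * X2 * κ.1 ^ 2 = 4 * (X2 * κ.1 ^ 2) by ring]
  have hXb : 2 * (X2 * (mulp b c κ κ).1) ≤ Xm := by
    rw [hXm]
    have h1 := (mulp_fst_bounds hκ.sec hκ.sec).2
    have h2 : X2 * (mulp b c κ κ).1 ≤ X2 * (2 * (κ.1 * κ.1)) := by gcongr
    linarith [show 4 * X2 * κ.1 ^ 2 = 2 * (X2 * (2 * (κ.1 * κ.1))) by ring]
  -- angle of κ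
  set A : ℝ := L * ang b c κ with hA
  have hA0 : 0 ≤ A := by
    rw [hA]; have := ang_nonneg hκ.sec; positivity
  have hA16 : A ≤ L * a0 b c / 16 := by
    have h1 := ang_le_slope b c (slope_nonneg hκ.sec)
    have h2 : slope κ ≤ 1 / K := by
      unfold slope
      have k1 : (0 : ℝ) < κ.1 := by exact_mod_cast hκ.sec.1
      rw [div_le_div_iff₀ k1 hK0]
      have : ((K : ℤ) * κ.2 : ℤ) ≤ κ.1 := hKκ
      have : (K : ℝ) * κ.2 ≤ κ.1 := by exact_mod_cast this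
      linarith
    have h3 : ang b c κ ≤ a0 b c / 16 := by
      calc ang b c κ ≤ 8 * slope κ := h1
        _ ≤ 8 * (1 / K) := by gcongr
        _ ≤ a0 b c / 16 := by
          rw [mul_one_div, div_le_div_iff₀ hK0 (by norm_num)]
          linarith
    rw [hA]
    calc (L : ℝ) * ang b c κ ≤ L * (a0 b c / 16) := by gcongr
      _ = L * a0 b c / 16 := by ring
  have hWL : (W : ℝ) ≤ L * a0 b c / 32 := by
    have h1 : 2 * (L : ℝ) ^ (3 * θ) ≤ L * a0 b c / 32 := by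
      have h2 : 2 * 32 / a0 b c * (L : ℝ) ^ (3 * θ) = (2 * (L : ℝ) ^ (3 * θ)) * (32 / a0 b c) := by
        ring
      rw [h2, ← le_div_iff₀ (by positivity)] at e2
      refine e2.trans (le_of_eq ?_)
      field_simp
    linarith
  set M : ℕ := ⌊L * a0 b c / 4⌋₊ with hM
  have hM1 : (M : ℝ) ≤ L * a0 b c / 4 := Nat.floor_le (by positivity)
  have hM2 : L * a0 b c / 4 < (M : ℝ) + 1 := Nat.lt_floor_add_one _
  set M' : ℕ := M + W + ⌈L * a0 b c / 4⌉₊ with hM'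
  have hM'1 : (M' : ℝ) = M + W + (⌈L * a0 b c / 4⌉₊ : ℕ) := by rw [hM']; push_cast; ring
  have hM'2 : L * a0 b c / 4 ≤ (⌈L * a0 b c / 4⌉₊ : ℕ) := Nat.le_ceil _
  have hM'3 : ((⌈L * a0 b c / 4⌉₊ : ℕ) : ℝ) < L * a0 b c / 4 + 1 :=
    Nat.ceil_lt_add_one (by positivity)
  have hrange : (M' : ℝ) + W + 2 ≤ L * a0 b c := by
    rw [hM'1]; linarith
  -- bad sets
  set BC : Finset ℕ := (range M').filter (fun j => 2 ≤ j ∧ ¬ Cov b c L X1 W j) with hBC
  set BG : Finset ℕ := (range M').filter (fun j => W ≤ j ∧ ¬ GoodE P b c L Xm W r j) with hBG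
  set BR : Finset ℕ := (range M').filter (fun j => ¬ Rich b c L X2 p p' j) with hBR
  have hpig := pigeon (fun j => W ≤ j ∧ ¬ (Cov b c L X1 W j ∧ GoodE P b c L Xm W r j ∧
    Rich b c L X2 p p' j)) M M' ((range 5).image (fun i : ℕ => W + ⌊(i : ℝ) * A⌋₊)) (by
    intro j hj
    obtain ⟨i, hi, hbad⟩ := chain3 hD hL (W := W) (by omega) h1m hXm4 hκ hXa hXb r (j + W) (by
      have hjr : (j : ℝ) ≤ M := by exact_mod_cast hj.le
      rw [← hA]
      push_cast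
      linarith)
    rw [← hA] at hbad
    refine ⟨W + ⌊(i : ℝ) * A⌋₊, ?_, by omega, ?_⟩
    · rw [mem_image]
      exact ⟨i, mem_range.2 (by omega), rfl⟩
    · rw [← add_assoc]; exact hbad) (by
    intro o ho
    rw [mem_image] at ho
    obtain ⟨i, hi, rfl⟩ := ho
    rw [mem_range] at hi
    have hi' : (i : ℝ) ≤ 4 := by exact_mod_cast (by omega : i ≤ 4)
    have h1 : (⌊(i : ℝ) * A⌋₊ : ℝ) ≤ i * A := Nat.floor_le (by positivity)
    have h2 : (i : ℝ) * A ≤ 4 * A := by gcongr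
    have : (M : ℝ) + ((W + ⌊(i : ℝ) * A⌋₊ : ℕ) : ℝ) ≤ M' := by
      rw [hM'1]; push_cast; linarith
    exact_mod_cast this)
  have hO5 : ((range 5).image (fun i : ℕ => W + ⌊(i : ℝ) * A⌋₊)).card ≤ 5 := by
    refine card_image_le.trans ?_
    rw [card_range]
  have hsub : (range M').filter (fun j => W ≤ j ∧ ¬ (Cov b c L X1 W j ∧
      GoodE P b c L Xm W r j ∧ Rich b c L X2 p p' j)) ⊆ BC ∪ BG ∪ BR := by
    intro j hj
    rw [mem_filter, mem_range] at hj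
    obtain ⟨hj1, hj2, hj3⟩ := hj
    rw [mem_union, mem_union, hBC, hBG, hBR, mem_filter, mem_filter, mem_filter, mem_range]
    by_cases c1 : Cov b c L X1 W j
    · by_cases c2 : GoodE P b c L Xm W r j
      · right
        exact ⟨hj1, fun c3 => hj3 ⟨c1, c2, c3⟩⟩
      · left; right
        exact ⟨hj1, hj2, c2⟩
    · left; left
      exact ⟨hj1, by omega, c1⟩
  have hcard := (card_le_card hsub).trans ((card_union_le _ _).trans
    (Nat.add_le_add_right (card_union_le _ _) _))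
  have hM5 : M ≤ 5 * (BC.card + BG.card + BR.card) :=
    hpig.trans (Nat.mul_le_mul hO5 hcard)
  have hM5r : (M : ℝ) ≤ 5 * (BC.card + BG.card + BR.card) := by exact_mod_cast hM5
  -- counts
  have hcC := uncov_count (b := b) (c := c) hL hX1BB hW4 M' (by linarith) BC (by
    intro j hj
    rw [hBC, mem_filter, mem_range] at hj
    exact ⟨hj.2.1, hj.1, hj.2.2⟩)
  have hcR := unrich_count (b := b) (c := c) hD hκ.hp hκ.hp' hp5 hp5' hpD hpD' hL hX3pos M'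
    (by linarith) BR (by
    intro j hj
    rw [hBR, mem_filter, mem_range] at hj
    exact hj)
  have hSN : ∀ t : ℕ, 0 < t → (t : ℤ) ≤ 2 * Xm ^ 2 → 0 < ff b c t →
      ((cnt P (ff b c t).natAbs : ℕ) : ZMod 3) = r → t ∈ goodset3 P b c r N := by
    intro t ht htX hf hs
    unfold goodset3
    rw [mem_filter, Finset.mem_Icc]
    refine ⟨⟨ht, ?_⟩, hf, hs⟩
    have hκr : (0 : ℝ) ≤ κ.1 := by
      have : (0 : ℤ) ≤ κ.1 := by linarith
      exact_mod_cast this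
    have h1 : (Xm : ℝ) ≤ 200 * (κ.1 : ℝ) ^ 2 * (L : ℝ) ^ (1 / 2 + θ) := by
      rw [hXm, hX2]
      push_cast
      calc 4 * (25 * (X3 : ℝ)) * (κ.1 : ℝ) ^ 2 ≤
            4 * (25 * (2 * (L : ℝ) ^ (1 / 2 + θ))) * (κ.1 : ℝ) ^ 2 := by gcongr
        _ = 200 * (κ.1 : ℝ) ^ 2 * (L : ℝ) ^ (1 / 2 + θ) := by ring
    have hXm0 : (0 : ℝ) ≤ Xm := by
      have : (0 : ℤ) ≤ Xm := by linarith
      exact_mod_cast this
    have h2 : (t : ℝ) ≤ N := by
      calc (t : ℝ) ≤ 2 * (Xm : ℝ) ^ 2 := by exact_mod_cast htX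
        _ ≤ 2 * (200 * (κ.1 : ℝ) ^ 2 * (L : ℝ) ^ (1 / 2 + θ)) ^ 2 := by gcongr
        _ = 80000 * (κ.1 : ℝ) ^ 4 * (((L : ℝ) ^ (1 / 2 + θ)) ^ 2) := by ring
        _ = 80000 * (κ.1 : ℝ) ^ 4 * (L : ℝ) ^ (1 + 2 * θ) := by
            congr 1
            rw [← Real.rpow_natCast, ← Real.rpow_mul hLpos.le]; congr 1; push_cast; ring
        _ ≤ N := hN
    exact_mod_cast h2
  have hcG := bad3_count (P := P) (b := b) (c := c) hL (Xm := Xm) (W := W) (r := r) BG (by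
    intro j hj
    rw [hBG, mem_filter, mem_range] at hj
    refine ⟨hj.2.1, ?_, hj.2.2⟩
    have : (j : ℝ) ≤ M' := by exact_mod_cast hj.1.le
    linarith) (goodset3 P b c r N) hSN Dm (by
    intro t ht
    unfold goodset3 at ht
    rw [mem_filter] at ht
    exact hDm t ht.1 ht.2.1)
  have hcGr : (BG.card : ℝ) ≤ (goodset3 P b c r N).card * ((2 * W + 1) * Dm) := by
    exact_mod_cast hcG
  exact real_final L θ (a0 b c) W X1 X3 BC.card BG.card BR.card M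
    ((goodset3 P b c r N).card : ℝ) Dm hLr hθ ha0 hX1a hX1b hX3a hWa hWb e1 hLa' hM2 hM5r hcC hcR
    hcGr (by positivity) (by positivity)

end Pool.Agent.Lib.MP_a17b09_nt
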