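import Pool.Agent.Lib.MP_a17b09_nt.M3.Final3
import Pool.Agent.Lib.MP_a17b09_nt.PrimesAP

set_option autoImplicit false

namespace Pool.Agent.Lib.MP_a17b09_nt.M3.OmegaModThree

open Pool.Agent.Lib.MP_a17b09_nt

/-- The number of prime factors of `n` that lie in the set `P`, counted with multiplicity. -/
noncomputable def omegaIn (P : Set ℕ) (n : ℕ) : ℕ :=
  ∑ p ∈ n.primeFactors, P.indicator (fun q => n.factorization q) p

lemma cnt_eq (P : Set ℕ) (n : ℕ) : cnt P n = omegaIn P n := by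
  classical
  unfold cnt omegaIn
  rw [List.countP_eq_length_filter, ← Multiset.coe_card, ← Multiset.filter_coe,
    ← Multiset.toFinset_sum_count_eq]
  have h1 : (Multiset.filter (fun p => p ∈ P) (n.primeFactorsList : Multiset ℕ)).toFinset ⊆
      n.primeFactors := by
    intro p hp
    rw [Multiset.mem_toFinset, Multiset.mem_filter] at hp
    exact Nat.mem_primeFactors_iff_mem_primeFactorsList.2 (by simpa using hp.1)
  have h2 : ∀ p ∈ n.primeFactors,
      p ∉ (Multiset.filter (fun p => p ∈ P) (n.primeFactorsList : Multiset ℕ)).toFinset →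
      Multiset.count p (Multiset.filter (fun p => p ∈ P) (n.primeFactorsList : Multiset ℕ)) = 0 := by
    intro p _ hp
    rw [Multiset.mem_toFinset] at hp
    exact Multiset.count_eq_zero.2 hp
  refine (Finset.sum_subset h1 h2).trans ?_
  apply Finset.sum_congr rfl
  intro p _
  by_cases hp : p ∈ P
  · rw [Multiset.count_filter_of_pos hp, Set.indicator_of_mem hp, Multiset.coe_count,
      Nat.primeFactorsList_count_eq]
  · rw [Multiset.count_filter_of_neg hp, Set.indicator_of_notMem hp]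

lemma many_primes (q : ℕ) (hq : 0 < q) (H : ℕ) :
    ∃ C : ℝ, 1 < C ∧ ∃ z0 : ℝ, ∀ z : ℝ, z0 ≤ z → ∃ ps : Finset ℕ, H < ps.card ∧
      ∀ p ∈ ps, p.Prime ∧ p ≡ 1 [MOD q] ∧ z < p ∧ (p : ℝ) ≤ z ^ C := by
  induction H with
  | zero =>
    obtain ⟨C, hC, z0, hz0⟩ := exists_prime_between q hq
    refine ⟨C, hC, z0, ?_⟩
    intro z hz
    obtain ⟨p, h1, h2, h3, h4⟩ := hz0 z hz
    refine ⟨{p}, by simp, ?_⟩
    intro p' hp'
    rw [Finset.mem_singleton] at hp'
    subst hp'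
    exact ⟨h1, h2, h3, h4⟩
  | succ H ih =>
    obtain ⟨C, hC, z0, hz0⟩ := ih
    obtain ⟨C1, hC1, z1, hz1⟩ := exists_prime_between q hq
    refine ⟨C * C1, by nlinarith, max (max z0 z1) 1, ?_⟩
    intro z hz
    have k1 : z0 ≤ z := (le_max_left _ _).trans ((le_max_left _ _).trans hz)
    have k2 : z1 ≤ z := (le_max_right _ _).trans ((le_max_left _ _).trans hz)
    have k3 : 1 ≤ z := (le_max_right _ _).trans hz
    obtain ⟨ps, hps, hps2⟩ := hz0 z k1
    have hzC : z ≤ z ^ C := by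
      conv_lhs => rw [← Real.rpow_one z]
      exact Real.rpow_le_rpow_of_exponent_le k3 hC.le
    obtain ⟨p, h1, h2, h3, h4⟩ := hz1 (z ^ C) (k2.trans hzC)
    have hnot : p ∉ ps := by
      intro hmem
      have := (hps2 p hmem).2.2.2
      linarith
    refine ⟨insert p ps, ?_, ?_⟩
    · rw [Finset.card_insert_of_notMem hnot]; omega
    · intro p' hp'
      rw [Finset.mem_insert] at hp'
      rcases hp' with rfl | hp'
      · refine ⟨h1, h2, lt_of_le_of_lt hzC h3, ?_⟩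
        rw [Real.rpow_mul (by linarith)]
        exact h4
      · obtain ⟨g1, g2, g3, g4⟩ := hps2 p' hp'
        refine ⟨g1, g2, g3, g4.trans ?_⟩
        apply Real.rpow_le_rpow_of_exponent_le k3
        nlinarith

/-- Let `f(t) = t² + b t + c` have nonsquare discriminant and let `ε > 0`. There are `m ≥ 1` and
`0 < α < β ≤ ε` such that for all large `N`, every set `P` that contains the primes
`p ≡ 1 (mod m)` with `N^α < p ≤ N^β`, and every residue class `r` modulo three, at least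
`N^(1-ε)` integers `1 ≤ t ≤ N` have `f(t) > 0` with a number of prime factors in `P`, counted with
multiplicity, that is congruent to `r` modulo three. -/
theorem result (b c : ℤ) (hD : ¬ IsSquare (b ^ 2 - 4 * c)) (ε : ℝ) (hε : 0 < ε) :
    ∃ m : ℕ, 0 < m ∧ ∃ α β : ℝ, 0 < α ∧ α < β ∧ β ≤ ε ∧ ∃ N₀ : ℕ, ∀ N : ℕ, N₀ ≤ N →
      ∀ P : Set ℕ,
        (∀ p : ℕ, p.Prime → p ≡ 1 [MOD m] → (N : ℝ) ^ α < p → (p : ℝ) ≤ (N : ℝ) ^ β → p ∈ P) →
        ∀ r : ℕ, (N : ℝ) ^ (1 - ε) ≤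
          (Set.ncard {t : ℕ | 1 ≤ t ∧ t ≤ N ∧ 0 < (t : ℤ) ^ 2 + b * t + c ∧
            omegaIn P ((t : ℤ) ^ 2 + b * t + c).toNat ≡ r [MOD 3]} : ℝ) := by
  obtain ⟨m, hm, H, δ, hδ, hunif⟩ := uniform3 hD ε hε
  obtain ⟨C, hC, z0, hz0⟩ := many_primes m hm H
  have hC0 : 0 < C := by linarith
  set β : ℝ := min δ ε with hβ
  have hβ0 : 0 < β := lt_min hδ hε
  have hβδ : β ≤ δ := min_le_left _ _
  refine ⟨m, hm, β / C, β, by positivity, ?_, min_le_right _ _, ?_⟩
  · rw [div_lt_iff₀ hC0]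
    calc β = β * 1 := by ring
      _ < β * C := by gcongr
  have hz : Filter.Tendsto (fun N : ℕ => (N : ℝ) ^ (β / C)) Filter.atTop Filter.atTop :=
    (tendsto_rpow_atTop (by positivity)).comp tendsto_natCast_atTop_atTop
  have hev := (hunif.and (hz.eventually_ge_atTop z0)).and (Filter.eventually_gt_atTop 0)
  obtain ⟨N₀, hN₀⟩ := Filter.eventually_atTop.1 hev
  refine ⟨N₀, ?_⟩
  intro N hN P hP r
  obtain ⟨⟨h1, h2⟩, h3⟩ := hN₀ N hN
  have hN1 : (1 : ℝ) ≤ N := by exact_mod_cast h3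
  obtain ⟨ps, hps, hps2⟩ := hz0 _ h2
  have e : ((N : ℝ) ^ (β / C)) ^ C = (N : ℝ) ^ β := by
    rw [← Real.rpow_mul (by linarith), div_mul_cancel₀ _ hC0.ne']
  have hmain := h1 P ⟨ps, hps, by
    intro p hp
    obtain ⟨g1, g2, g3, g4⟩ := hps2 p hp
    rw [e] at g4
    exact ⟨hP p g1 g2 g3 g4, g1, g2, g4.trans
      (Real.rpow_le_rpow_of_exponent_le hN1 hβδ)⟩⟩ (r : ZMod 3)
  refine hmain.trans (le_of_eq ?_)
  rw [← Set.ncard_coe_finset]
  congr 2
  ext t
  unfold goodset3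
  simp only [Finset.coe_filter, Finset.mem_Icc, Set.mem_ofPred_eq]
  constructor
  · rintro ⟨⟨h1, h2⟩, h3, h4⟩
    refine ⟨h1, h2, h3, ?_⟩
    rw [cnt_eq] at h4
    unfold ff at h3 h4
    have e : ((t : ℤ) ^ 2 + b * t + c).natAbs = ((t : ℤ) ^ 2 + b * t + c).toNat := by
      omega
    rw [e] at h4
    exact (ZMod.natCast_eq_natCast_iff _ _ _).1 h4
  · rintro ⟨h1, h2, h3, h4⟩
    refine ⟨⟨h1, h2⟩, h3, ?_⟩
    rw [cnt_eq]
    unfold ff
    have e : ((t : ℤ) ^ 2 + b * t + c).natAbs = ((t : ℤ) ^ 2 + b * t + c).toNat := by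
      omega
    rw [e]
    exact (ZMod.natCast_eq_natCast_iff _ _ _).2 h4

end Pool.Agent.Lib.MP_a17b09_nt.M3.OmegaModThree
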